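import Pool.Agent.W5h25.AS.Cls

set_option autoImplicit false
set_option linter.unusedSectionVars false
set_option linter.unusedVariables false
set_option linter.unusedSimpArgs false

/-!
# How the roots act on the irreducible subspaces
-/

open Module Pool.Agent.R912 Pool.Agent.R912.Q Pool.Agent.Y102.SP

namespace Pool.Agent.W5h25.AS

attribute [local instance 100] LieRing.ofAssociativeRing

variable {U : Type} [AddCommGroup U] [Module ℂ U] [FiniteDimensional ℂ U]
  {T : Type} [AddCommGroup T] [Module ℂ T] {L : Submodule ℂ (Module.End ℂ U)}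

/-- The hypotheses: the isotypic components have dimension at most four. -/
structure Hyp4 (L : Submodule ℂ (Module.End ℂ U)) (ω : U →ₗ[ℂ] U →ₗ[ℂ] ℂ) : Prop
    extends THyp L ω where
  pk : ∀ N : Submodule ℂ U, IrrSub L N → finrank ℂ (PK L N) ≤ 4

section

variable {S : RS L T} {N D : Submodule ℂ U}

theorem act_diff (hN : Stab L N) {γ : Module.Dual ℂ T} (hγ : γ ∈ S.R.Φ) (ha : Act S γ N) :
    ∃ χ ∈ wts S N, ∃ ψ ∈ wts S N, γ = χ - ψ := by
  obtain ⟨χ, hχ, h0⟩ := ha
  rcases lt_or_gt_of_ne h0 with h | h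
  · have h1 := low1 hN (S.R.neg _ hγ) hχ (by rw [S.R.pneg _ hγ]; linarith)
    exact ⟨_, h1, χ, hχ, by abel⟩
  · have h1 := low1 hN hγ hχ h
    exact ⟨χ, hχ, _, h1, by abel⟩

theorem rank_one (hN : Stab L N) {α : Module.Dual ℂ T} (hα : α ∈ S.R.Φ)
    (h : ∀ χ ∈ wts S N, ∃ q : ℚ, χ = q • α) {γ : Module.Dual ℂ T} (hγ : γ ∈ S.R.Φ)
    (ha : Act S γ N) : γ = α ∨ γ = -α := by
  obtain ⟨χ, hχ, ψ, hψ, rfl⟩ := act_diff hN hγ ha
  obtain ⟨q, rfl⟩ := h _ hχ
  obtain ⟨r, rfl⟩ := h _ hψ
  rw [← sub_smul] at hγ ⊢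
  rcases S.R.red α hα _ hγ with h1 | h1
  · left; rw [h1, one_smul]
  · right; rw [h1, neg_one_smul]

theorem long_of_odd {lam mu : Module.Dual ℂ T} (hII : TII S lam mu)
    (hw : ∀ χ ∈ wts S N, χ = lam ∨ χ = mu ∨ χ = -mu ∨ χ = -lam) (hN : Stab L N)
    {β γ : Module.Dual ℂ T} (hβ : β ∈ S.R.Φ) (hγ : γ ∈ S.R.Φ) (aβ : Act S β N) (aγ : Act S γ N)
    (hodd : S.R.pr β γ = 1 ∨ S.R.pr β γ = -1) :
    β = lam + lam ∨ β = -(lam + lam) ∨ β = mu + mu ∨ β = -(mu + mu) := by
  have key : (S.R.pr β lam = 1 ∨ S.R.pr β lam = -1) → (S.R.pr β mu = 1 ∨ S.R.pr β mu = -1) →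
      False := by
    intro h1 h2
    obtain ⟨χ, hχ, ψ, hψ, rfl⟩ := act_diff hN hγ aγ
    have h3 : ∀ χ ∈ wts S N, S.R.pr β χ = 1 ∨ S.R.pr β χ = -1 := by
      intro χ hχ
      rcases hw χ hχ with rfl | rfl | rfl | rfl
      · exact h1
      · exact h2
      · rw [map_neg]; rcases h2 with h | h <;> rw [h] <;> norm_num
      · rw [map_neg]; rcases h1 with h | h <;> rw [h] <;> norm_num
    have h4 := h3 _ hχ
    have h5 := h3 _ hψ
    rw [map_sub] at hodd
    rcases h4 with h4 | h4 <;> rcases h5 with h5 | h5 <;> rcases hodd with h6 | h6 <;>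
      rw [h4, h5] at h6 <;> norm_num at h6
  obtain ⟨χ, hχ, ψ, hψ, hβe⟩ := act_diff hN hβ aβ
  have kadd : β = lam + mu ∨ β = -(lam + mu) → False := by
    rintro (rfl | rfl)
    · exact key (Or.inl hII.al) (Or.inl hII.am)
    · refine key (Or.inr ?_) (Or.inr ?_)
      · rw [S.R.pneg _ hII.add, hII.al]
      · rw [S.R.pneg _ hII.add, hII.am]
  have ksub : β = lam - mu ∨ β = -(lam - mu) → False := by
    rintro (rfl | rfl)
    · exact key (Or.inl hII.sl) (Or.inr hII.sm)
    · refine key (Or.inr ?_) (Or.inl ?_)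
      · rw [S.R.pneg _ hII.sub, hII.sl]
      · rw [S.R.pneg _ hII.sub, hII.sm, neg_neg]
  have h0 : β ≠ 0 := fun h => S.R.zero (h ▸ hβ)
  rcases hw χ hχ with rfl | rfl | rfl | rfl <;> rcases hw ψ hψ with h | h | h | h <;> rw [h] at hβe
  · exact absurd (by rw [hβe]; abel) h0
  · exact absurd (Or.inl hβe) ksub
  · exact absurd (Or.inl (by rw [hβe]; abel)) kadd
  · exact Or.inl (by rw [hβe]; abel)
  · exact absurd (Or.inr (by rw [hβe]; abel)) ksub
  · exact absurd (by rw [hβe]; abel) h0
  · exact Or.inr (Or.inr (Or.inl (by rw [hβe]; abel)))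
  · exact absurd (Or.inl (by rw [hβe]; abel)) kadd
  · exact absurd (Or.inr (by rw [hβe]; abel)) kadd
  · exact Or.inr (Or.inr (Or.inr (by rw [hβe]; abel)))
  · exact absurd (by rw [hβe]; abel) h0
  · exact absurd (Or.inl (by rw [hβe]; abel)) ksub
  · exact Or.inr (Or.inl (by rw [hβe]; abel))
  · exact absurd (Or.inr (by rw [hβe]; abel)) kadd
  · exact absurd (Or.inr (by rw [hβe]; abel)) ksub
  · exact absurd (by rw [hβe]; abel) h0

end

section

variable {ω : U →ₗ[ℂ] U →ₗ[ℂ] ℂ} (H : Hyp4 L ω) {N D : Submodule ℂ U}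
include H

theorem dim24 (hN : IrrSub L N) : finrank ℂ N = 2 ∨ finrank ℂ N = 4 := by
  obtain ⟨m, hm⟩ := H.even hN
  have h1 := H.two_le hN
  have h2 := Submodule.finrank_mono (le_PK (L := L) (N := N))
  have h3 := H.pk N hN
  omega

theorem pk_eq (hN : IrrSub L N) (h4 : finrank ℂ N = 4) : PK L N = N := by
  refine (Submodule.eq_of_le_of_finrank_le le_PK ?_).symm
  rw [h4]
  exact H.pk N hN

theorem k_stab (hN : IrrSub L N) (h4 : finrank ℂ N = 4) : ∀ x ∈ comL L, ∀ u ∈ N, x u ∈ N := by
  intro x hx u hu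
  have h1 := PK_K (N := N) x hx u (by rw [pk_eq H hN h4]; exact hu)
  rwa [pk_eq H hN h4] at h1

theorem frm4 (hN : IrrSub L N) (h4 : finrank ℂ N = 4) : Frm L N ω (-1) :=
  H.frm_nd hN (H.abs N hN.stab (k_stab H hN h4))

/-- The classification of the irreducible subspaces of dimension four. -/
theorem cls4 {S : RS L T} {φ : Module.Dual ℂ T →ₗ[ℚ] ℚ} (hφ : Phi S φ) (hN : IrrSub L N)
    (h4 : finrank ℂ N = 4) : ∃ lam mu a b c d, W4 S ω N φ lam mu a b c d ∧
      ((mu + mu ∈ S.R.Φ ∧ lam = mu + mu + mu) ∨ TII S lam mu) := by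
  obtain ⟨lam, mu, a, b, c, d, W, h1, h2⟩ := exists_w4 hφ hN (frm4 H hN h4) h4
  exact ⟨lam, mu, a, b, c, d, W, type_cls H.alt H.skew W h1 h2⟩

theorem two_wts (S : RS L T) (hN : IrrSub L N) (h2 : finrank ℂ N = 2) :
    ∃ nu, nu + nu ∈ S.R.Φ ∧ wts S N = {nu, -nu} := by
  obtain ⟨k, hk, ε, hε, F⟩ := H.exists_frm hN
  have hε' : ε = -1 := by
    refine hε.resolve_left fun h => ?_
    rw [h] at F
    exact no_orth_two S hN F h2
  rw [hε'] at F
  obtain ⟨φ, hφ⟩ := exists_phi S
  obtain ⟨b, χ, W⟩ : ∃ b χ, S.WB N 2 b χ := by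
    rw [← h2]
    exact S.exists_wb hN
  obtain ⟨i0, hT⟩ := hφ.top W (by norm_num)
  have nz : ∀ i, χ i ≠ 0 := fun i => W.ne_zero F hN hT rfl (by norm_num) i
  obtain ⟨j0, hj0⟩ := W.exists_neg F i0
  have hne : χ j0 ≠ χ i0 := by
    intro h
    rw [hj0] at h
    have h3 := congrArg φ h
    rw [map_neg] at h3
    exact nz i0 (hT.zero i0 (by linarith))
  have hij : j0 ≠ i0 := fun h => hne (by rw [h])
  have hall : ∀ m, m = i0 ∨ m = j0 := by
    intro m
    by_contra hcon
    push Not at hcon
    have h3 := hcon.1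
    have h4 := hcon.2
    omega
  have h3 := (W.second hT hN hne fun i hi => by
    rcases hall i with h | h
    · rw [h] at hi
      exact absurd rfl hi
    · rw [h]).2.1
  refine ⟨χ i0, ?_, ?_⟩
  · have h4 := S.R.neg _ h3
    have h5 : -(χ j0 - χ i0) = χ i0 + χ i0 := by rw [hj0]; abel
    rwa [h5] at h4
  · rw [wts_wb W]
    ext ψ
    simp only [Set.mem_range, Set.mem_insert_iff, Set.mem_singleton_iff]
    constructor
    · rintro ⟨m, rfl⟩
      rcases hall m with h | h
      · rw [h]; exact Or.inl rfl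
      · rw [h]; exact Or.inr hj0
    · rintro (rfl | rfl)
      · exact ⟨_, rfl⟩
      · exact ⟨j0, hj0⟩

/-- The roots of the second type do not act on the complement. -/
theorem noact_II {S : RS L T} {φ : Module.Dual ℂ T →ₗ[ℚ] ℚ} (hφ : Phi S φ)
    {lam mu : Module.Dual ℂ T} {a b c d : U} (W : W4 S ω N φ lam mu a b c d)
    (h4 : finrank ℂ N = 4) (hII : TII S lam mu) (hD : IrrSub L D) (hDN : D ≤ oP ω N) :
    ¬ Act S (lam + lam) D := by
  intro ha
  have hp := W.pos
  have hlt := W.lt
  have hDs : Stab L D := hD.stab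
  have a1 : Act S (lam - mu) D := act_conn hDs hII.l2 (by rw [map_add, hII.sl]; norm_num) ha
  have a2 : Act S (mu + mu) D := act_conn hDs hII.sub (by
    rw [map_sub, hII.ml, hII.mm]; norm_num) a1
  have hne : ∀ α : Module.Dual ℂ T, ¬ ((lam + lam = α ∨ lam + lam = -α) ∧
      (lam - mu = α ∨ lam - mu = -α)) := by
    rintro α ⟨h1, h2⟩
    have h3 : φ (lam + lam) = φ (lam - mu) ∨ φ (lam + lam) = -φ (lam - mu) := by
      rcases h1 with h1 | h1 <;> rcases h2 with h2 | h2 <;> rw [h1, h2] <;> simp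
    rw [map_add, map_sub] at h3
    rcases h3 with h3 | h3
    · linarith
    · -- 3 λ = μ
      linarith
  rcases dim24 H hD with h2 | h2
  · obtain ⟨nu, hnu, hw⟩ := two_wts H S hD h2
    have hr : ∀ χ ∈ wts S D, ∃ q : ℚ, χ = q • (nu + nu) := by
      intro χ hχ
      rw [hw] at hχ
      simp only [Set.mem_insert_iff, Set.mem_singleton_iff] at hχ
      rcases hχ with rfl | rfl
      · exact ⟨1 / 2, by module⟩
      · exact ⟨-1 / 2, by module⟩
    exact hne _ ⟨rank_one hDs hnu hr hII.l2 ha, rank_one hDs hnu hr hII.sub a1⟩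
  · obtain ⟨lam', mu', a', b', c', d', W', hcl⟩ := cls4 H hφ hD h2
    have hw' : ∀ χ ∈ wts S D, χ = lam' ∨ χ = mu' ∨ χ = -mu' ∨ χ = -lam' := by
      intro χ hχ
      rw [W'.w] at hχ
      simpa only [Set.mem_insert_iff, Set.mem_singleton_iff] using hχ
    rcases hcl with ⟨hm, hl⟩ | hII'
    · have hr : ∀ χ ∈ wts S D, ∃ q : ℚ, χ = q • (mu' + mu') := by
        intro χ hχ
        rcases hw' χ hχ with rfl | rfl | rfl | rfl
        · exact ⟨3 / 2, by rw [hl]; module⟩
        · exact ⟨1 / 2, by module⟩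
        · exact ⟨-1 / 2, by module⟩
        · exact ⟨-3 / 2, by rw [hl]; module⟩
      exact hne _ ⟨rank_one hDs hm hr hII.l2 ha, rank_one hDs hm hr hII.sub a1⟩
    · have k1 := long_of_odd hII' hw' hDs hII.l2 hII.sub ha a1 (Or.inl (by
        rw [map_sub, hII.ll, hII.lm]; norm_num))
      have k2 := long_of_odd hII' hw' hDs hII.m2 hII.sub a2 a1 (Or.inr (by
        rw [map_sub, hII.ml, hII.mm]; norm_num))
      have half : ∀ x y : Module.Dual ℂ T, x + x = y + y → x = y := by
        intro x y h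
        have h1 : (2 : ℚ) • (x - y) = 0 := by
          rw [two_smul]
          have : x - y + (x - y) = (x + x) - (y + y) := by abel
          rw [this, h, sub_self]
        have h2 := (smul_eq_zero.1 h1).resolve_left two_ne_zero
        exact sub_eq_zero.1 h2
      have k3 : lam = lam' ∨ lam = -lam' ∨ lam = mu' ∨ lam = -mu' := by
        rcases k1 with h | h | h | h
        · exact Or.inl (half _ _ h)
        · exact Or.inr (Or.inl (half _ _ (by rw [h]; abel)))
        · exact Or.inr (Or.inr (Or.inl (half _ _ h)))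
        · exact Or.inr (Or.inr (Or.inr (half _ _ (by rw [h]; abel))))
      have k4 : mu = lam' ∨ mu = -lam' ∨ mu = mu' ∨ mu = -mu' := by
        rcases k2 with h | h | h | h
        · exact Or.inl (half _ _ h)
        · exact Or.inr (Or.inl (half _ _ (by rw [h]; abel)))
        · exact Or.inr (Or.inr (Or.inl (half _ _ h)))
        · exact Or.inr (Or.inr (Or.inr (half _ _ (by rw [h]; abel))))
      have hne1 : lam ≠ mu := fun h => by rw [h] at hlt; exact lt_irrefl _ hlt
      have hne2 : lam ≠ -mu := fun h => by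
        have := congrArg φ h
        rw [map_neg] at this
        linarith
      refine same_wts H.toTHyp0 S W.irr.stab (k_stab H W.irr h4) W.irr hD le_rfl hDN ?_
      rw [W.w, W'.w]
      rcases k3 with h | h | h | h <;> rcases k4 with h' | h' | h' | h'
      · exact absurd (h.trans h'.symm) hne1
      · exact absurd (by rw [h, h', neg_neg]) hne2
      · rw [h, h']
      · rw [h, h', neg_neg]
        ext ψ
        simp only [Set.mem_insert_iff, Set.mem_singleton_iff]
        tauto
      · exact absurd (by rw [h, h']) hne2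
      · exact absurd (h.trans h'.symm) hne1
      · rw [h, h', neg_neg]
        ext ψ
        simp only [Set.mem_insert_iff, Set.mem_singleton_iff]
        tauto
      · rw [h, h', neg_neg, neg_neg]
        ext ψ
        simp only [Set.mem_insert_iff, Set.mem_singleton_iff]
        tauto
      · rw [h, h']
        ext ψ
        simp only [Set.mem_insert_iff, Set.mem_singleton_iff]
        tauto
      · rw [h, h', neg_neg]
        ext ψ
        simp only [Set.mem_insert_iff, Set.mem_singleton_iff]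
        tauto
      · exact absurd (h.trans h'.symm) hne1
      · exact absurd (by rw [h, h', neg_neg]) hne2
      · rw [h, h', neg_neg]
        ext ψ
        simp only [Set.mem_insert_iff, Set.mem_singleton_iff]
        tauto
      · rw [h, h', neg_neg, neg_neg]
        ext ψ
        simp only [Set.mem_insert_iff, Set.mem_singleton_iff]
        tauto
      · exact absurd (by rw [h, h']) hne2
      · exact absurd (h.trans h'.symm) hne1

/-- If the root of a subspace of the first type acts on an irreducible subspace of the complement,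
then this has dimension two. -/
theorem act_I {S : RS L T} {φ : Module.Dual ℂ T →ₗ[ℚ] ℚ} (hφ : Phi S φ)
    {lam mu : Module.Dual ℂ T} {a b c d : U} (W : W4 S ω N φ lam mu a b c d)
    (h4 : finrank ℂ N = 4) (hm : mu + mu ∈ S.R.Φ) (hl : lam = mu + mu + mu) (hD : IrrSub L D)
    (hDN : D ≤ oP ω N) (ha : Act S (mu + mu) D) : wts S D = {mu, -mu} := by
  have hp := W.pos
  have hDs : Stab L D := hD.stab
  have hNs : Stab L N := W.irr.stab
  have half : ∀ x y : Module.Dual ℂ T, x + x = y + y → x = y := by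
    intro x y h
    have h1 : (2 : ℚ) • (x - y) = 0 := by
      rw [two_smul]
      have : x - y + (x - y) = (x + x) - (y + y) := by abel
      rw [this, h, sub_self]
    have h2 := (smul_eq_zero.1 h1).resolve_left two_ne_zero
    exact sub_eq_zero.1 h2
  have hw : ∀ χ ∈ wts S N, χ = lam ∨ χ = mu ∨ χ = -mu ∨ χ = -lam := by
    intro χ hχ
    rw [W.w] at hχ
    simpa only [Set.mem_insert_iff, Set.mem_singleton_iff] using hχ
  have hrN : ∀ χ ∈ wts S N, ∃ q : ℚ, χ = q • (mu + mu) := by
    intro χ hχ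
    rcases hw χ hχ with rfl | rfl | rfl | rfl
    · exact ⟨3 / 2, by rw [hl]; module⟩
    · exact ⟨1 / 2, by module⟩
    · exact ⟨-1 / 2, by module⟩
    · exact ⟨-3 / 2, by rw [hl]; module⟩
  have hmm : S.R.pr (mu + mu) mu = 1 := by
    have := S.R.two _ hm
    rw [map_add] at this
    linarith
  have haN : Act S (mu + mu) N := ⟨mu, by rw [W.w]; simp, by rw [hmm]; norm_num⟩
  have hnb : ∀ δ ∈ S.R.Φ, S.R.pr δ (mu + mu) ≠ 0 → δ = mu + mu ∨ δ = -(mu + mu) := fun δ hδ h =>
    rank_one hNs hm hrN hδ (act_conn hNs hm h haN)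
  rcases dim24 H hD with h2 | h2
  · obtain ⟨nu, hnu, hwD⟩ := two_wts H S hD h2
    have hr : ∀ χ ∈ wts S D, ∃ q : ℚ, χ = q • (nu + nu) := by
      intro χ hχ
      rw [hwD] at hχ
      simp only [Set.mem_insert_iff, Set.mem_singleton_iff] at hχ
      rcases hχ with rfl | rfl
      · exact ⟨1 / 2, by module⟩
      · exact ⟨-1 / 2, by module⟩
    rw [hwD]
    rcases rank_one hDs hnu hr hm ha with h | h
    · rw [half _ _ h]
    · have h3 : mu = -nu := half _ _ (by rw [h]; abel)
      rw [h3, neg_neg, Set.pair_comm]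
  · exfalso
    obtain ⟨lam', mu', a', b', c', d', W', hcl⟩ := cls4 H hφ hD h2
    have hp' := W'.pos
    have hlt' := W'.lt
    have hw' : ∀ χ ∈ wts S D, χ = lam' ∨ χ = mu' ∨ χ = -mu' ∨ χ = -lam' := by
      intro χ hχ
      rw [W'.w] at hχ
      simpa only [Set.mem_insert_iff, Set.mem_singleton_iff] using hχ
    rcases hcl with ⟨hm', hl'⟩ | hII'
    · have hr : ∀ χ ∈ wts S D, ∃ q : ℚ, χ = q • (mu' + mu') := by
        intro χ hχ
        rcases hw' χ hχ with rfl | rfl | rfl | rfl
        · exact ⟨3 / 2, by rw [hl']; module⟩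
        · exact ⟨1 / 2, by module⟩
        · exact ⟨-1 / 2, by module⟩
        · exact ⟨-3 / 2, by rw [hl']; module⟩
      have h3 : mu = mu' := by
        rcases rank_one hDs hm' hr hm ha with h | h
        · exact half _ _ h
        · exfalso
          have h3 : mu = -mu' := half _ _ (by rw [h]; abel)
          rw [h3, map_neg] at hp
          linarith
      refine same_wts H.toTHyp0 S W.irr.stab (k_stab H W.irr h4) W.irr hD le_rfl hDN ?_
      rw [W.w, W'.w, hl, hl', h3]
    · obtain ⟨χ, hχ, ψ, hψ, hβe⟩ := act_diff hDs hm ha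
      have h0 : mu + mu ≠ 0 := fun h => S.R.zero (h ▸ hm)
      -- long roots
      have klong : ∀ x : Module.Dual ℂ T, (x = lam' + lam' ∨ x = mu' + mu' ∨ x = -(lam' + lam') ∨
          x = -(mu' + mu')) → mu + mu = x → False := by
        intro x hx hmx
        have h3 := hnb _ hII'.sub (by
          rw [hmx]
          rcases hx with rfl | rfl | rfl | rfl
          · rw [map_add, hII'.sl]; norm_num
          · rw [map_add, hII'.sm]; norm_num
          · rw [map_neg, map_add, hII'.sl]; norm_num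
          · rw [map_neg, map_add, hII'.sm]; norm_num)
        rw [hmx] at h3
        rcases hx with rfl | rfl | rfl | rfl
        · rcases h3 with h3 | h3 <;> have h4 := congrArg (S.R.pr (lam' + lam')) h3 <;>
            simp only [map_sub, map_add, map_neg, hII'.ll, hII'.lm] at h4 <;> norm_num at h4
        · rcases h3 with h3 | h3 <;> have h4 := congrArg (S.R.pr (mu' + mu')) h3 <;>
            simp only [map_sub, map_add, map_neg, hII'.ml, hII'.mm] at h4 <;> norm_num at h4
        · rcases h3 with h3 | h3 <;> have h4 := congrArg (S.R.pr (lam' + lam')) h3 <;>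
            simp only [map_sub, map_add, map_neg, hII'.ll, hII'.lm] at h4 <;> norm_num at h4
        · rcases h3 with h3 | h3 <;> have h4 := congrArg (S.R.pr (mu' + mu')) h3 <;>
            simp only [map_sub, map_add, map_neg, hII'.ml, hII'.mm] at h4 <;> norm_num at h4
      have kshort : ∀ x : Module.Dual ℂ T, (x = lam' + mu' ∨ x = lam' - mu' ∨ x = -(lam' + mu') ∨
          x = -(lam' - mu')) → mu + mu = x → False := by
        intro x hx hmx
        have h3 := hnb _ hII'.l2 (by
          rw [hmx]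
          rcases hx with rfl | rfl | rfl | rfl <;>
            simp only [map_sub, map_add, map_neg, hII'.ll, hII'.lm] <;> norm_num)
        rw [hmx] at h3
        rcases hx with rfl | rfl | rfl | rfl <;> rcases h3 with h3 | h3 <;>
          have h4 := congrArg (S.R.pr (lam' + lam')) h3 <;>
            simp only [map_sub, map_add, map_neg, hII'.ll, hII'.lm] at h4 <;> norm_num at h4
      rcases hw' χ hχ with rfl | rfl | rfl | rfl <;> rcases hw' ψ hψ with h | h | h | h <;>
        rw [h] at hβe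
      · exact h0 (by rw [hβe]; abel)
      · exact kshort _ (Or.inr (Or.inl rfl)) (by rw [hβe])
      · exact kshort _ (Or.inl rfl) (by rw [hβe]; abel)
      · exact klong _ (Or.inl rfl) (by rw [hβe]; abel)
      · exact kshort _ (Or.inr (Or.inr (Or.inr rfl))) (by rw [hβe]; abel)
      · exact h0 (by rw [hβe]; abel)
      · exact klong _ (Or.inr (Or.inl rfl)) (by rw [hβe]; abel)
      · exact kshort _ (Or.inl rfl) (by rw [hβe]; abel)
      · exact kshort _ (Or.inr (Or.inr (Or.inl rfl))) (by rw [hβe]; abel)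
      · exact klong _ (Or.inr (Or.inr (Or.inr rfl))) (by rw [hβe]; abel)
      · exact h0 (by rw [hβe]; abel)
      · exact kshort _ (Or.inr (Or.inl rfl)) (by rw [hβe]; abel)
      · exact klong _ (Or.inr (Or.inr (Or.inl rfl))) (by rw [hβe]; abel)
      · exact kshort _ (Or.inr (Or.inr (Or.inl rfl))) (by rw [hβe]; abel)
      · exact kshort _ (Or.inr (Or.inr (Or.inr rfl))) (by rw [hβe]; abel)
      · exact h0 (by rw [hβe]; abel)

end

end Pool.Agent.W5h25.AS
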