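import Pool.Agent.H204R3.SP.Tate

set_option autoImplicit false
set_option linter.unusedSectionVars false

/-!
# Alternating forms and endomorphisms with three eigenvalues `1`, `0`, `-1` outside of a space of
# dimension four
-/

open Module Function Pool.Agent.H204R3.SP

namespace Pool.Agent.W5h25.AS

variable {U : Type} [AddCommGroup U] [Module ℂ U] {ι : Type} [Fintype ι] [DecidableEq ι]

/-- The form vanishes if two arguments are equal. -/
def IsAlt (Ψ : MultilinearMap ℂ (fun _ : ι => U) ℂ) : Prop :=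
  ∀ (v : ι → U) (i j : ι), i ≠ j → v i = v j → Ψ v = 0

/-- The endomorphisms which kill the form. -/
def KL (Ψ : MultilinearMap ℂ (fun _ : ι => U) ℂ) : Submodule ℂ (Module.End ℂ U) where
  carrier := {X | Kills X Ψ}
  zero_mem' := by
    intro v
    refine Finset.sum_eq_zero fun k _ => ?_
    rw [LinearMap.zero_apply]
    exact Ψ.map_coord_zero k (Function.update_self _ _ _)
  add_mem' := by
    intro X Y hX hY v
    have h1 := hX v
    have h2 := hY v
    have h3 := congrArg₂ (fun x y : ℂ => x + y) h1 h2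
    simp only [add_zero] at h3
    rw [← h3, ← Finset.sum_add_distrib]
    refine Finset.sum_congr rfl fun k _ => ?_
    rw [LinearMap.add_apply, MultilinearMap.map_update_add]
  smul_mem' := by
    intro c X hX v
    have h1 := hX v
    rw [← mul_zero c, ← h1, Finset.mul_sum]
    refine Finset.sum_congr rfl fun k _ => ?_
    rw [LinearMap.smul_apply, MultilinearMap.map_update_smul, smul_eq_mul]

theorem mem_KL {Ψ : MultilinearMap ℂ (fun _ : ι => U) ℂ} {X : Module.End ℂ U} :
    X ∈ KL Ψ ↔ Kills X Ψ := Iff.rfl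

theorem KL_br {Ψ : MultilinearMap ℂ (fun _ : ι => U) ℂ} {X Y : Module.End ℂ U} (hX : X ∈ KL Ψ)
    (hY : Y ∈ KL Ψ) : X * Y - Y * X ∈ KL Ψ := kills_bracket hX hY

theorem kills_of_span {κ : Type} [Fintype κ] [DecidableEq κ] {b : κ → U}
    (hb : Submodule.span ℂ (Set.range b) = ⊤) (X : Module.End ℂ U)
    (Ψ : MultilinearMap ℂ (fun _ : ι => U) ℂ)
    (h : ∀ t : ι → κ, ∑ k, Ψ (Function.update (fun l => b (t l)) k (X (b (t k)))) = 0) :
    X ∈ KL Ψ := by
  let D : MultilinearMap ℂ (fun _ : ι => U) ℂ :=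
    ∑ k, Ψ.compLinearMap (fun l => if l = k then X else LinearMap.id)
  have hD : ∀ v, D v = ∑ k, Ψ (Function.update v k (X (v k))) := by
    intro v
    change (∑ k, Ψ.compLinearMap (fun l => if l = k then X else LinearMap.id)) v = _
    rw [MultilinearMap.sum_apply]
    refine Finset.sum_congr rfl fun k _ => ?_
    rw [MultilinearMap.compLinearMap_apply]
    congr 1
    funext l
    by_cases hl : l = k
    · subst hl
      rw [Function.update_self, if_pos rfl]
    · rw [Function.update_of_ne hl, if_neg hl]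
      rfl
  let Θ : (κ → ℂ) →ₗ[ℂ] U := Fintype.linearCombination ℂ b
  have hΘ : ∀ j, Θ (Pi.single j 1) = b j := fun j => by
    change Fintype.linearCombination ℂ b (Pi.single j 1) = b j
    rw [Fintype.linearCombination_apply_single, one_smul]
  have h0 : D.compLinearMap (fun _ => Θ) = 0 := by
    refine Basis.ext_multilinear (fun _ => Pi.basisFun ℂ κ) fun I => ?_
    rw [MultilinearMap.compLinearMap_apply, hD, MultilinearMap.zero_apply]
    simp only [Pi.basisFun_apply, hΘ]
    exact h I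
  intro v
  have hs : ∀ i, ∃ c, Θ c = v i := by
    intro i
    have h1 : v i ∈ Submodule.span ℂ (Set.range b) := by rw [hb]; trivial
    rw [← Fintype.range_linearCombination ℂ b] at h1
    exact h1
  choose c hc using hs
  have h1 := congrArg (fun F : MultilinearMap ℂ (fun _ : ι => κ → ℂ) ℂ => F c) h0
  simp only [MultilinearMap.compLinearMap_apply, MultilinearMap.zero_apply] at h1
  rw [← hD]
  have h2 : v = fun i => Θ (c i) := funext fun i => (hc i).symm
  rw [h2]
  exact h1

section Tuple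

variable {κ : Type} [Fintype κ] [DecidableEq κ] {b : κ → U} {x : κ → ℤ}
  {Ψ : MultilinearMap ℂ (fun _ : ι => U) ℂ} {h f : Module.End ℂ U}

theorem wt_sum (hh : ∀ j, h (b j) = (x j : ℂ) • b j) (hk : h ∈ KL Ψ) {t : ι → κ}
    (h0 : Ψ (fun l => b (t l)) ≠ 0) : ∑ i, x (t i) = 0 := by
  have h1 := hk (fun l => b (t l))
  have h2 : ∀ k, Ψ (Function.update (fun l => b (t l)) k (h (b (t k)))) =
      (x (t k) : ℂ) * Ψ (fun l => b (t l)) := by
    intro k
    rw [hh, MultilinearMap.map_update_smul, smul_eq_mul]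
    congr 2
    exact Function.update_eq_self k (fun l => b (t l))
  rw [Finset.sum_congr rfl (fun k _ => h2 k), ← Finset.sum_mul] at h1
  have h3 := (mul_eq_zero.1 h1).resolve_right h0
  exact_mod_cast h3

omit [Fintype κ] [DecidableEq κ] in
theorem inj_of_ne (hA : IsAlt Ψ) {t : ι → κ} (h0 : Ψ (fun l => b (t l)) ≠ 0) :
    Function.Injective t := by
  intro i j hij
  by_contra hne
  refine h0 (hA _ i j hne ?_)
  change b (t i) = b (t j)
  rw [hij]

/-- **The main lemma.** -/
theorem occ (hA : IsAlt Ψ) (hh : ∀ j, h (b j) = (x j : ℂ) • b j) (hk : h ∈ KL Ψ) (hf : f ∈ KL Ψ)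
    {k3 k1 m1 m3 : κ} (x3 : x k3 = 3) (x1 : x k1 = 1) (y1 : x m1 = -1)
    (hx : ∀ j, j ≠ m3 → -1 ≤ x j)
    (hcard : (Finset.univ.filter fun j => x j = -1).card ≤ 3)
    (f3 : ∃ a : ℂ, f (b k3) = a • b k1) (f1 : ∃ c : ℂ, c ≠ 0 ∧ f (b k1) = c • b m1)
    (f0 : ∀ j, j ≠ m1 → j ≠ m3 → (x j = 0 ∨ x j = -1) → f (b j) = 0)
    {t : ι → κ} (h0 : Ψ (fun l => b (t l)) ≠ 0) {i0 : ι} (hi0 : t i0 = k3) :
    ∃ i, t i = m3 := by
  by_contra hno
  push Not at hno
  have hinj := inj_of_ne hA h0
  have hsum := wt_sum hh hk h0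
  obtain ⟨s, hs⟩ : ∃ s, s = Finset.univ.image t := ⟨_, rfl⟩
  have hmem : ∀ i, t i ∈ s := fun i => by rw [hs]; exact Finset.mem_image_of_mem _ (Finset.mem_univ i)
  have hex : ∀ j ∈ s, ∃ i, t i = j := by
    intro j hj
    rw [hs] at hj
    obtain ⟨i, -, hi⟩ := Finset.mem_image.1 hj
    exact ⟨i, hi⟩
  have hs1 : ∑ j ∈ s, x j = 0 := by
    rw [hs, Finset.sum_image (fun i _ j _ hij => hinj hij)]
    exact hsum
  have hk3 : k3 ∈ s := hi0 ▸ hmem i0
  rw [← Finset.add_sum_erase _ _ hk3, x3] at hs1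
  have hm3 : m3 ∉ s := fun hm => by
    obtain ⟨i, hi⟩ := hex _ hm
    exact hno i hi
  obtain ⟨s1, hs1def⟩ : ∃ s1, s1 = (s.erase k3).filter (fun j => x j = -1) := ⟨_, rfl⟩
  obtain ⟨s2, hs2def⟩ : ∃ s2, s2 = (s.erase k3).filter (fun j => ¬ x j = -1) := ⟨_, rfl⟩
  rw [← Finset.sum_filter_add_sum_filter_not (s.erase k3) (fun j => x j = -1), ← hs1def,
    ← hs2def] at hs1
  have e1 : ∑ j ∈ s1, x j = -(s1.card : ℤ) := by
    rw [Finset.sum_congr rfl (g := fun _ => (-1 : ℤ)) (fun j hj => by
      rw [hs1def] at hj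
      exact (Finset.mem_filter.1 hj).2)]
    simp
  have e2 : ∀ j ∈ s2, 0 ≤ x j := by
    intro j hj
    rw [hs2def] at hj
    obtain ⟨hj1, hj2⟩ := Finset.mem_filter.1 hj
    have h1 := hx j fun e => hm3 (e ▸ Finset.mem_of_mem_erase hj1)
    omega
  have e3 := Finset.sum_nonneg e2
  have e4 : s1 ⊆ Finset.univ.filter fun j => x j = -1 := by
    intro j hj
    rw [hs1def] at hj
    exact Finset.mem_filter.2 ⟨Finset.mem_univ _, (Finset.mem_filter.1 hj).2⟩
  have e5 := Finset.card_le_card e4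
  rw [e1] at hs1
  have e6 : s1 = Finset.univ.filter fun j => x j = -1 := by
    refine Finset.eq_of_subset_of_card_le e4 ?_
    omega
  have e7 : ∑ j ∈ s2, x j = 0 := by omega
  have e8 := (Finset.sum_eq_zero_iff_of_nonneg e2).1 e7
  have hm1 : m1 ∈ s := by
    have h1 : m1 ∈ s1 := by
      rw [e6]
      exact Finset.mem_filter.2 ⟨Finset.mem_univ _, y1⟩
    rw [hs1def] at h1
    exact Finset.mem_of_mem_erase (Finset.mem_filter.1 h1).1
  have hcase : ∀ j ∈ s, j ≠ k3 → (x j = 0 ∨ x j = -1) := by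
    intro j hj hne
    by_cases h1 : x j = -1
    · exact Or.inr h1
    · left
      refine e8 j ?_
      rw [hs2def]
      exact Finset.mem_filter.2 ⟨Finset.mem_erase.2 ⟨hne, hj⟩, h1⟩
  obtain ⟨i1, hi1⟩ := hex _ hm1
  have hi01 : i0 ≠ i1 := by
    rintro rfl
    rw [hi0] at hi1
    rw [hi1, y1] at x3
    norm_num at x3
  obtain ⟨v, hv⟩ : ∃ v : ι → U, v = fun l => b (t l) := ⟨_, rfl⟩
  have h1 := hf (Function.update v i1 (b k1))
  rw [← Finset.add_sum_erase _ _ (Finset.mem_univ i1), Function.update_self,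
    Function.update_idem] at h1
  obtain ⟨c, hc, hc'⟩ := f1
  obtain ⟨a, ha⟩ := f3
  have h2 : Ψ (Function.update v i1 (f (b k1))) = c * Ψ v := by
    rw [hc', MultilinearMap.map_update_smul, smul_eq_mul]
    congr 2
    have h3 : b m1 = v i1 := by rw [hv]; change b m1 = b (t i1); rw [hi1]
    rw [h3]
    exact Function.update_eq_self _ _
  have h3 : ∑ k ∈ Finset.univ.erase i1, Ψ (Function.update (Function.update v i1 (b k1)) k
      (f (Function.update v i1 (b k1) k))) = 0 := by
    refine Finset.sum_eq_zero fun k hk => ?_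
    have hki := Finset.ne_of_mem_erase hk
    rw [Function.update_of_ne hki]
    have hvk : v k = b (t k) := by rw [hv]
    rw [hvk]
    by_cases h4 : k = i0
    · rw [h4, hi0, ha, MultilinearMap.map_update_smul]
      have h5 : Ψ (Function.update (Function.update v i1 (b k1)) i0 (b k1)) = 0 := by
        refine hA _ i0 i1 hi01 ?_
        rw [Function.update_self, Function.update_of_ne hi01.symm, Function.update_self]
      rw [h5, smul_zero]
    · have h5 : t k ≠ k3 := fun e => h4 (hinj (e.trans hi0.symm))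
      have h6 : t k ≠ m1 := fun e => hki (hinj (e.trans hi1.symm))
      rw [f0 (t k) h6 (hno k) (hcase _ (hmem k) h5)]
      exact MultilinearMap.map_update_zero _ _ _
  rw [h2, h3, add_zero] at h1
  rw [← hv] at h0
  exact h0 ((mul_eq_zero.1 h1).resolve_left hc)

theorem diag_mem (hA : IsAlt Ψ) (hb : Submodule.span ℂ (Set.range b) = ⊤) {k3 m3 : κ}
    (hne : k3 ≠ m3) (hocc : ∀ t : ι → κ, Ψ (fun l => b (t l)) ≠ 0 →
      ((∃ i, t i = k3) ↔ ∃ i, t i = m3)) {X : Module.End ℂ U} {r : ℂ}
    (h1 : X (b k3) = r • b k3) (h2 : X (b m3) = (-r) • b m3)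
    (h3 : ∀ j, j ≠ k3 → j ≠ m3 → X (b j) = 0) : X ∈ KL Ψ := by
  refine kills_of_span hb X Ψ fun t => ?_
  obtain ⟨y, hy⟩ : ∃ y : κ → ℂ, y = fun j => if j = k3 then r else if j = m3 then -r else 0 :=
    ⟨_, rfl⟩
  have hX : ∀ j, X (b j) = y j • b j := by
    intro j
    rw [hy]
    simp only
    by_cases e1 : j = k3
    · rw [if_pos e1, e1, h1]
    · by_cases e2 : j = m3
      · rw [if_neg e1, if_pos e2, e2, h2]
      · rw [if_neg e1, if_neg e2, h3 j e1 e2, zero_smul]
  have e1 : ∀ k, Ψ (Function.update (fun l => b (t l)) k (X (b (t k)))) =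
      y (t k) * Ψ (fun l => b (t l)) := by
    intro k
    rw [hX, MultilinearMap.map_update_smul, smul_eq_mul]
    congr 2
    exact Function.update_eq_self k (fun l => b (t l))
  rw [Finset.sum_congr rfl (fun k _ => e1 k), ← Finset.sum_mul]
  by_cases h0 : Ψ (fun l => b (t l)) = 0
  · rw [h0, mul_zero]
  · have hinj := inj_of_ne hA h0
    have h4 := hocc t h0
    have key : ∀ (k : κ) (r : ℂ), ∑ i, (if t i = k then r else 0) =
        if (∃ i, t i = k) then r else 0 := by
      intro k r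
      by_cases h5 : ∃ i, t i = k
      · obtain ⟨i, hi⟩ := h5
        rw [if_pos ⟨i, hi⟩, Finset.sum_eq_single i]
        · rw [if_pos hi]
        · intro j _ hj
          rw [if_neg]
          exact fun e => hj (hinj (e.trans hi.symm))
        · intro hi'
          exact absurd (Finset.mem_univ _) hi'
      · rw [if_neg h5]
        refine Finset.sum_eq_zero fun i _ => ?_
        rw [if_neg]
        exact fun e => h5 ⟨i, e⟩
    have h6 : ∑ i, y (t i) = 0 := by
      have h7 : ∀ i, y (t i) = (if t i = k3 then r else 0) + (if t i = m3 then -r else 0) := by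
        intro i
        rw [hy]
        simp only
        by_cases e1 : t i = k3
        · rw [if_pos e1, if_pos e1, if_neg (fun e => hne (e1.symm.trans e)), add_zero]
        · rw [if_neg e1, if_neg e1, zero_add]
      rw [Finset.sum_congr rfl (fun i _ => h7 i), Finset.sum_add_distrib, key, key]
      by_cases h8 : ∃ i, t i = k3
      · rw [if_pos h8, if_pos (h4.1 h8), add_neg_cancel]
      · rw [if_neg h8, if_neg (fun h9 => h8 (h4.2 h9)), add_zero]
    rw [h6, zero_mul]

end Tuple

end Pool.Agent.W5h25.AS
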