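import Pool.Agent.W5h25.AS.Wt

set_option autoImplicit false
set_option linter.unusedSectionVars false
set_option linter.unusedVariables false
set_option linter.unusedSimpArgs false

/-!
# Irreducible subspaces of dimension four: weights
-/

open Module Pool.Agent.R912 Pool.Agent.R912.Q Pool.Agent.Y102.SP

namespace Pool.Agent.W5h25.AS

attribute [local instance 100] LieRing.ofAssociativeRing

variable {U : Type} [AddCommGroup U] [Module ℂ U] [FiniteDimensional ℂ U]
  {T : Type} [AddCommGroup T] [Module ℂ T] {L : Submodule ℂ (Module.End ℂ U)}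

/-- A basis of weight vectors of a symplectic irreducible subspace of dimension four. -/
structure W4 (S : RS L T) (ω : U →ₗ[ℂ] U →ₗ[ℂ] ℂ) (N : Submodule ℂ U)
    (φ : Module.Dual ℂ T →ₗ[ℚ] ℚ) (lam mu : Module.Dual ℂ T) (a b c d : U) : Prop where
  irr : IrrSub L N
  ma : a ∈ N
  mb : b ∈ N
  mc : c ∈ N
  md : d ∈ N
  span : N ≤ Submodule.span ℂ {a, b, c, d}
  wa : a ∈ usp S.ι lam
  wb : b ∈ usp S.ι mu
  wc : c ∈ usp S.ι (-mu)
  wd : d ∈ usp S.ι (-lam)
  a0 : a ≠ 0
  b0 : b ≠ 0
  c0 : c ≠ 0
  d0 : d ≠ 0
  w : wts S N = {lam, mu, -mu, -lam}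
  sa : ∀ u ∈ N, u ∈ usp S.ι lam → ∃ r : ℂ, u = r • a
  sb : ∀ u ∈ N, u ∈ usp S.ι mu → ∃ r : ℂ, u = r • b
  sc : ∀ u ∈ N, u ∈ usp S.ι (-mu) → ∃ r : ℂ, u = r • c
  sd : ∀ u ∈ N, u ∈ usp S.ι (-lam) → ∃ r : ℂ, u = r • d
  ad : ω a d ≠ 0
  bc : ω b c ≠ 0
  ab : ω a b = 0
  ac : ω a c = 0
  bd : ω b d = 0
  cd : ω c d = 0
  pos : 0 < φ mu
  lt : φ mu < φ lam

theorem fin4_all : ∀ i0 i1 j1 j0 m : Fin 4, i0 ≠ i1 → i0 ≠ j1 → i0 ≠ j0 → i1 ≠ j1 → i1 ≠ j0 →
    j1 ≠ j0 → m = i0 ∨ m = i1 ∨ m = j1 ∨ m = j0 := by decide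

theorem fin4_third : ∀ i j : Fin 4, ∃ m, m ≠ i ∧ m ≠ j := by decide

theorem exists_w4 {S : RS L T} {ω : U →ₗ[ℂ] U →ₗ[ℂ] ℂ} {N : Submodule ℂ U}
    {φ : Module.Dual ℂ T →ₗ[ℚ] ℚ} (hφ : Phi S φ) (hN : IrrSub L N) (F : Frm L N ω (-1))
    (h4 : finrank ℂ N = 4) :
    ∃ lam mu a b c d, W4 S ω N φ lam mu a b c d ∧ lam - mu ∈ S.R.Φ ∧
      (-(mu + mu) ∈ S.R.Φ ∨ (-(lam + mu) ∈ S.R.Φ ∧ S.e (-(lam + mu)) a ≠ 0)) := by
  classical
  obtain ⟨b, χ, W⟩ : ∃ b χ, S.WB N 4 b χ := by
    rw [← h4]
    exact S.exists_wb hN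
  obtain ⟨i0, hT⟩ := hφ.top W (by norm_num)
  have nz : ∀ i, χ i ≠ 0 := fun i => W.ne_zero F hN hT rfl (by norm_num) i
  have s : ∀ i j, χ i = χ j → i = j := fun i j h => W.simple_of_ne F hN hT (by norm_num) h (nz i)
  have φ0 : ∀ i, φ (χ i) ≠ 0 := fun i h => nz i (hT.zero i h)
  obtain ⟨j0, hj0⟩ := W.exists_neg F i0
  have pj0 : φ (χ j0) = -φ (χ i0) := by rw [hj0, map_neg]
  have pos0 : 0 < φ (χ i0) := by
    have h1 := hT.max j0
    rw [pj0] at h1
    exact lt_of_le_of_ne (by linarith) (φ0 i0).symm
  have hij0 : i0 ≠ j0 := by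
    rintro rfl
    linarith
  obtain ⟨i1, h1, h2⟩ := Finset.exists_max_image
    (Finset.univ.filter fun m => m ≠ i0) (fun m => φ (χ m)) ⟨j0, by simp [hij0.symm]⟩
  have hi1 : i1 ≠ i0 := (Finset.mem_filter.1 h1).2
  have hmax : ∀ m, m ≠ i0 → φ (χ m) ≤ φ (χ i1) := fun m hm => h2 m (by simp [hm])
  have pos1 : 0 < φ (χ i1) := by
    obtain ⟨m, hm0, hm1⟩ := fin4_third i0 j0
    obtain ⟨m', hm'⟩ := W.exists_neg F m
    have h3 : m' ≠ i0 := by
      rintro rfl
      apply hm1
      apply s
      rw [hj0, hm', neg_neg]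
    have h4 := hmax m hm0
    have h5 := hmax m' h3
    rw [hm', map_neg] at h5
    have h6 := φ0 m
    by_contra hcon
    apply h6
    linarith
  obtain ⟨j1, hj1⟩ := W.exists_neg F i1
  have pj1 : φ (χ j1) = -φ (χ i1) := by rw [hj1, map_neg]
  have hlt : φ (χ i1) < φ (χ i0) := lt_of_le_of_ne (hT.max i1) fun h =>
    hi1 (s _ _ (hT.inj _ _ h))
  have hij1 : i1 ≠ j1 := by
    rintro rfl
    linarith
  have hi0j1 : i0 ≠ j1 := by
    rintro rfl
    linarith
  have hi1j0 : i1 ≠ j0 := by
    rintro rfl
    linarith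
  have hj1j0 : j1 ≠ j0 := by
    rintro rfl
    rw [pj1] at pj0
    linarith
  have hall : ∀ m, m = i0 ∨ m = i1 ∨ m = j1 ∨ m = j0 := fun m =>
    fin4_all i0 i1 j1 j0 m hi1.symm hi0j1 hij0 hij1 hi1j0 hj1j0
  have orth : ∀ i j, χ j ≠ -χ i → ω (b i) (b j) = 0 := fun i j h => by
    by_contra hne
    exact h (W.partner_wt F hne)
  have part : ∀ i j, χ j = -χ i → ω (b i) (b j) ≠ 0 := fun i j h => by
    obtain ⟨k, hk⟩ := W.partner F i
    have h3 := W.partner_wt F hk
    rwa [s k j (h3.trans h.symm)] at hk
  have hsub : χ i0 - χ i1 ∈ S.R.Φ := by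
    have h3 := (W.second hT hN (i1 := i1) (fun h => hi1 (s _ _ h)) fun i hi =>
      hmax i fun h => hi (by rw [h])).2.1
    have h4 := S.R.neg _ h3
    rwa [neg_sub] at h4
  refine ⟨χ i0, χ i1, b i0, b i1, b j1, b j0, ⟨hN, W.mem _, W.mem _, W.mem _, W.mem _, ?_, W.wt _,
    W.wt _, by rw [← hj1]; exact W.wt _, by rw [← hj0]; exact W.wt _, W.ne _, W.ne _, W.ne _,
    W.ne _, ?_, fun u hu h => W.of_usp1 hu h fun j hj => s j i0 hj,
    fun u hu h => W.of_usp1 hu h fun j hj => s j i1 hj,
    fun u hu h => W.of_usp1 hu h fun j hj => s j j1 (hj.trans hj1.symm),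
    fun u hu h => W.of_usp1 hu h fun j hj => s j j0 (hj.trans hj0.symm),
    part _ _ hj0, part _ _ hj1, orth _ _ fun h => ?_, orth _ _ fun h => ?_, orth _ _ fun h => ?_,
    orth _ _ fun h => ?_, pos1, hlt⟩, hsub, ?_⟩
  · rw [← W.span, Submodule.span_le]
    rintro _ ⟨m, rfl⟩
    apply Submodule.subset_span
    simp only [Set.mem_insert_iff, Set.mem_singleton_iff]
    rcases hall m with rfl | rfl | rfl | rfl
    · exact Or.inl rfl
    · exact Or.inr (Or.inl rfl)
    · exact Or.inr (Or.inr (Or.inl rfl))
    · exact Or.inr (Or.inr (Or.inr rfl))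
  · rw [wts_wb W]
    ext ψ
    simp only [Set.mem_range, Set.mem_insert_iff, Set.mem_singleton_iff]
    constructor
    · rintro ⟨m, rfl⟩
      rcases hall m with rfl | rfl | rfl | rfl
      · exact Or.inl rfl
      · exact Or.inr (Or.inl rfl)
      · exact Or.inr (Or.inr (Or.inl hj1))
      · exact Or.inr (Or.inr (Or.inr hj0))
    · rintro (rfl | rfl | rfl | rfl)
      · exact ⟨_, rfl⟩
      · exact ⟨_, rfl⟩
      · exact ⟨j1, hj1⟩
      · exact ⟨j0, hj0⟩
  · have h3 := congrArg φ h
    rw [map_neg] at h3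
    linarith
  · have h3 := congrArg φ h
    rw [map_neg, pj1] at h3
    linarith
  · have h3 := congrArg φ h
    rw [map_neg, pj0] at h3
    linarith
  · have h3 := congrArg φ h
    rw [map_neg, pj1, pj0] at h3
    linarith
  · by_cases h3 : -(χ i1 + χ i1) ∈ S.R.Φ
    · exact Or.inl h3
    · right
      have h4 := W.low hT hN (μ := -χ i1) (W.mem j1) (by rw [← hj1]; exact W.wt _) (fun h => by
        have h5 := congrArg φ h
        rw [map_neg] at h5
        linarith)
      have h5 : Submodule.span ℂ {v | ∃ i, φ (-χ i1) < φ (χ i) ∧ -χ i1 - χ i ∈ S.R.Φ ∧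
          v = S.e (-χ i1 - χ i) (b i)} ≤ Submodule.span ℂ {S.e (-(χ i0 + χ i1)) (b i0)} := by
        rw [Submodule.span_le]
        rintro _ ⟨i, hi1', hi2, rfl⟩
        rw [map_neg] at hi1'
        rcases hall i with h | h | h | h
        · have h6 : -χ i1 - χ i = -(χ i0 + χ i1) := by rw [h]; abel
          rw [h6, h]
          exact Submodule.mem_span_singleton_self _
        · exfalso
          apply h3
          have h6 : -χ i1 - χ i = -(χ i1 + χ i1) := by rw [h]; abel
          rwa [h6] at hi2
        · exfalso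
          rw [h, pj1] at hi1'
          linarith
        · exfalso
          rw [h, pj0] at hi1'
          linarith
      obtain ⟨r, hr⟩ := Submodule.mem_span_singleton.1 (h5 h4)
      have h6 : S.e (-(χ i0 + χ i1)) (b i0) ≠ 0 := by
        intro h7
        rw [h7, smul_zero] at hr
        exact W.ne j1 hr.symm
      refine ⟨?_, h6⟩
      by_contra h7
      have h8 : {v | ∃ i, φ (-χ i1) < φ (χ i) ∧ -χ i1 - χ i ∈ S.R.Φ ∧
          v = S.e (-χ i1 - χ i) (b i)} = ∅ := by
        refine Set.eq_empty_iff_forall_notMem.2 ?_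
        rintro v ⟨i, hi1', hi2, -⟩
        rw [map_neg] at hi1'
        rcases hall i with h | h | h | h
        · apply h7
          have h6 : -χ i1 - χ i = -(χ i0 + χ i1) := by rw [h]; abel
          rwa [h6] at hi2
        · apply h3
          have h6 : -χ i1 - χ i = -(χ i1 + χ i1) := by rw [h]; abel
          rwa [h6] at hi2
        · rw [h, pj1] at hi1'
          linarith
        · rw [h, pj0] at hi1'
          linarith
      rw [h8, Submodule.span_empty, Submodule.mem_bot] at h4
      exact W.ne j1 h4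

/-- The type of the symplectic Lie algebra. -/
structure TII (S : RS L T) (lam mu : Module.Dual ℂ T) : Prop where
  l2 : lam + lam ∈ S.R.Φ
  m2 : mu + mu ∈ S.R.Φ
  sub : lam - mu ∈ S.R.Φ
  add : lam + mu ∈ S.R.Φ
  ll : S.R.pr (lam + lam) lam = 1
  lm : S.R.pr (lam + lam) mu = 0
  ml : S.R.pr (mu + mu) lam = 0
  mm : S.R.pr (mu + mu) mu = 1
  sl : S.R.pr (lam - mu) lam = 1
  sm : S.R.pr (lam - mu) mu = -1
  al : S.R.pr (lam + mu) lam = 1
  am : S.R.pr (lam + mu) mu = 1

theorem type_cls {S : RS L T} {ω : U →ₗ[ℂ] U →ₗ[ℂ] ℂ} {N : Submodule ℂ U}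
    {φ : Module.Dual ℂ T →ₗ[ℚ] ℚ} {lam mu : Module.Dual ℂ T} {a b c d : U}
    (al : ∀ u v, ω u v = -ω v u) (sk : ∀ x ∈ L, ∀ u v, ω (x u) v + ω u (x v) = 0)
    (W : W4 S ω N φ lam mu a b c d) (hsub : lam - mu ∈ S.R.Φ)
    (hlow : -(mu + mu) ∈ S.R.Φ ∨ (-(lam + mu) ∈ S.R.Φ ∧ S.e (-(lam + mu)) a ≠ 0)) :
    (mu + mu ∈ S.R.Φ ∧ lam = mu + mu + mu) ∨ TII S lam mu := by
  have hst : Stab L N := W.irr.stab
  have hW : ∀ χ ∈ wts S N, χ = lam ∨ χ = mu ∨ χ = -mu ∨ χ = -lam := by
    intro χ hχ
    rw [W.w] at hχ
    simpa only [Set.mem_insert_iff, Set.mem_singleton_iff] using hχ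
  have wl : lam ∈ wts S N := by rw [W.w]; simp
  have wm : mu ∈ wts S N := by rw [W.w]; simp
  have hp := W.pos
  have hlt := W.lt
  have hmaxφ : ∀ χ ∈ wts S N, φ χ ≤ φ lam := by
    intro χ hχ
    rcases hW χ hχ with rfl | rfl | rfl | rfl
    · exact le_rfl
    · exact hlt.le
    · rw [map_neg]; linarith
    · rw [map_neg]; linarith
  obtain ⟨n, hn⟩ := pr_int hsub wl
  have h2 := S.R.two _ hsub
  have hm : S.R.pr (lam - mu) mu = n - 2 := by
    rw [map_sub] at h2
    linarith
  -- n is positive
  have hn1 : 1 ≤ n := by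
    by_contra hcon
    push Not at hcon
    have hn0 : n ≤ 0 := by omega
    have h3 := wts_str hst (S.R.neg _ hsub) wm (k := 2) (by
      rw [S.R.pneg _ hsub, hm]
      have : (n : ℚ) ≤ 0 := by exact_mod_cast hn0
      push_cast
      linarith)
    have h4 := hmaxφ _ h3
    rw [map_sub, map_smul, map_neg, map_sub, smul_eq_mul] at h4
    push_cast at h4
    linarith
  have hr := hW _ (wts_refl hst hsub wl)
  rw [hn] at hr
  have hn1q : (1 : ℚ) ≤ n := by exact_mod_cast hn1
  rcases hr with hr | hr | hr | hr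
  · exfalso
    have h3 := congrArg φ hr
    rw [map_sub, map_smul, map_sub, smul_eq_mul] at h3
    have h4 : (n : ℚ) * (φ lam - φ mu) = 0 := by linarith
    rcases mul_eq_zero.1 h4 with h5 | h5 <;> linarith
  · -- the second type
    right
    have hn' : (n : ℚ) = 1 := by
      have h3 := congrArg φ hr
      rw [map_sub, map_smul, map_sub, smul_eq_mul] at h3
      have h4 : ((n : ℚ) - 1) * (φ lam - φ mu) = 0 := by linarith
      rcases mul_eq_zero.1 h4 with h5 | h5 <;> linarith
    have sl : S.R.pr (lam - mu) lam = 1 := by rw [hn, hn']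
    have sm : S.R.pr (lam - mu) mu = -1 := by rw [hm, hn']; norm_num
    have m2 : mu + mu ∈ S.R.Φ := by
      rcases hlow with h3 | ⟨h3, h4⟩
      · have h5 := S.R.neg _ h3
        rwa [neg_neg] at h5
      · by_cases h5 : lam + lam ∈ S.R.Φ
        · have h6 := S.R.refl _ hsub _ h5
          have h7 : lam + lam - S.R.pr (lam - mu) (lam + lam) • (lam - mu) = mu + mu := by
            rw [map_add, sl]
            module
          rwa [h7] at h6
        · exfalso
          have h6 := S.R.neg _ hsub
          have h7 : -(lam - mu) + -(lam + mu) = -(lam + lam) := by abel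
          have h8 : -(lam - mu) + -(lam + mu) ≠ 0 := by
            rw [h7]
            intro h9
            have h10 := congrArg φ h9
            rw [map_neg, map_add, map_zero] at h10
            linarith
          have h9 : -(lam - mu) + -(lam + mu) ∉ S.R.Φ := by
            rw [h7]
            intro h10
            apply h5
            have h11 := S.R.neg _ h10
            rwa [neg_neg] at h11
          have h10 := S.add0 _ h6 _ h3 h8 h9
          have h11 := LinearMap.congr_fun h10 a
          rw [Module.End.mul_apply, Module.End.mul_apply] at h11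
          have k1 := sk _ (S.emem _ h6) (S.e (-(lam + mu)) a) a
          have k2 := sk _ (S.emem _ h3) (S.e (-(lam - mu)) a) a
          rw [h11] at k1
          have k3 := al (S.e (-(lam - mu)) a) (S.e (-(lam + mu)) a)
          have k4 : ω (S.e (-(lam + mu)) a) (S.e (-(lam - mu)) a) = 0 := by
            linear_combination (1 / 2) * (k1 - k2 + k3)
          -- the vectors
          have w1 : S.e (-(lam + mu)) a ∈ usp S.ι (-mu) := by
            have := S.usp_mul (fun t => S.wt _ h3 t) W.wa
            have h12 : -(lam + mu) + lam = -mu := by abel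
            rwa [h12] at this
          have w2 : S.e (-(lam - mu)) a ∈ usp S.ι mu := by
            have := S.usp_mul (fun t => S.wt _ h6 t) W.wa
            have h12 : -(lam - mu) + lam = mu := by abel
            rwa [h12] at this
          obtain ⟨r1, hr1⟩ := W.sc _ (hst _ (S.emem _ h3) _ W.ma) w1
          obtain ⟨r2, hr2⟩ := W.sb _ (hst _ (S.emem _ h6) _ W.ma) w2
          have h13 : S.e (-(lam - mu)) a ≠ 0 := by
            have h14 := S.uinj hsub W.wa W.a0 (n := 1) (by rw [sl]; norm_num) (k := 1) le_rfl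
            rwa [pow_one] at h14
          rw [hr1, hr2, map_smul, map_smul, LinearMap.smul_apply, smul_eq_mul, smul_eq_mul,
            al c b] at k4
          rcases mul_eq_zero.1 k4 with h14 | h14
          · rw [h14, zero_smul] at hr2
            exact h13 hr2
          · rcases mul_eq_zero.1 h14 with h15 | h15
            · rw [h15, zero_smul] at hr1
              exact h4 hr1
            · exact W.bc (neg_eq_zero.1 h15)
    have l2 : lam + lam ∈ S.R.Φ := by
      have h6 := S.R.refl _ hsub _ m2
      have h7 : mu + mu - S.R.pr (lam - mu) (mu + mu) • (lam - mu) = lam + lam := by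
        rw [map_add, sm]
        module
      rwa [h7] at h6
    have mm : S.R.pr (mu + mu) mu = 1 := by
      have := S.R.two _ m2
      rw [map_add] at this
      linarith
    have ll : S.R.pr (lam + lam) lam = 1 := by
      have := S.R.two _ l2
      rw [map_add] at this
      linarith
    have ml : S.R.pr (mu + mu) lam = 0 := by
      obtain ⟨q, hq⟩ : ∃ q, S.R.pr (mu + mu) lam = q := ⟨_, rfl⟩
      have h3 := hW _ (wts_refl hst m2 wl)
      rw [hq] at h3 ⊢
      rcases h3 with h3 | h3 | h3 | h3
      · have h4 := congrArg (S.R.pr (lam - mu)) h3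
        simp only [map_sub, map_smul, map_add, map_neg, sl, sm, smul_eq_mul] at h4
        linarith
      · have h4 := congrArg (S.R.pr (lam - mu)) h3
        simp only [map_sub, map_smul, map_add, map_neg, sl, sm, smul_eq_mul] at h4
        have h5 := congrArg φ h3
        simp only [map_sub, map_smul, map_add, map_neg, smul_eq_mul] at h5
        have h6 : q = -1 := by linarith
        rw [h6] at h5
        linarith
      · have h4 := congrArg (S.R.pr (lam - mu)) h3
        simp only [map_sub, map_smul, map_add, map_neg, sl, sm, smul_eq_mul] at h4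
        linarith
      · have h4 := congrArg (S.R.pr (lam - mu)) h3
        simp only [map_sub, map_smul, map_add, map_neg, sl, sm, smul_eq_mul] at h4
        have h5 := congrArg φ h3
        simp only [map_sub, map_smul, map_add, map_neg, smul_eq_mul] at h5
        have h6 : q = -1 := by linarith
        rw [h6] at h5
        linarith
    have lm : S.R.pr (lam + lam) mu = 0 := by
      obtain ⟨q, hq⟩ : ∃ q, S.R.pr (lam + lam) mu = q := ⟨_, rfl⟩
      have h3 := hW _ (wts_refl hst l2 wm)
      rw [hq] at h3 ⊢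
      rcases h3 with h3 | h3 | h3 | h3
      · have h4 := congrArg (S.R.pr (lam - mu)) h3
        simp only [map_sub, map_smul, map_add, map_neg, sl, sm, smul_eq_mul] at h4
        have h5 := congrArg φ h3
        simp only [map_sub, map_smul, map_add, map_neg, smul_eq_mul] at h5
        have h6 : q = -1 := by linarith
        rw [h6] at h5
        linarith
      · have h4 := congrArg (S.R.pr (lam - mu)) h3
        simp only [map_sub, map_smul, map_add, map_neg, sl, sm, smul_eq_mul] at h4
        linarith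
      · have h4 := congrArg (S.R.pr (lam - mu)) h3
        simp only [map_sub, map_smul, map_add, map_neg, sl, sm, smul_eq_mul] at h4
        have h5 := congrArg φ h3
        simp only [map_sub, map_smul, map_add, map_neg, smul_eq_mul] at h5
        have h6 : q = -1 := by linarith
        rw [h6] at h5
        linarith
      · have h4 := congrArg (S.R.pr (lam - mu)) h3
        simp only [map_sub, map_smul, map_add, map_neg, sl, sm, smul_eq_mul] at h4
        linarith
    have add : lam + mu ∈ S.R.Φ := by
      have h3 := S.R.refl _ m2 _ hsub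
      have h4 : lam - mu - S.R.pr (mu + mu) (lam - mu) • (mu + mu) = lam + mu := by
        rw [map_sub, ml, mm]
        module
      rwa [h4] at h3
    have htwo := S.R.two _ add
    rw [map_add] at htwo
    obtain ⟨x, hx⟩ : ∃ x, S.R.pr (lam + mu) lam = x := ⟨_, rfl⟩
    obtain ⟨y, hy⟩ : ∃ y, S.R.pr (lam + mu) mu = y := ⟨_, rfl⟩
    rw [hx, hy] at htwo
    have hxr : x = 0 ∨ x = 1 := by
      have h3 := hW _ (wts_refl hst add wl)
      rw [hx] at h3
      rcases h3 with h3 | h3 | h3 | h3
      · left
        have h4 := congrArg (S.R.pr (lam + lam)) h3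
        simp only [map_sub, map_smul, map_add, map_neg, ll, lm, smul_eq_mul] at h4
        linarith
      · exfalso
        have h4 := congrArg (S.R.pr (lam + lam)) h3
        have h5 := congrArg (S.R.pr (mu + mu)) h3
        simp only [map_sub, map_smul, map_add, map_neg, ll, lm, smul_eq_mul] at h4
        simp only [map_sub, map_smul, map_add, map_neg, ml, mm, smul_eq_mul] at h5
        linarith
      · right
        have h4 := congrArg (S.R.pr (lam + lam)) h3
        simp only [map_sub, map_smul, map_add, map_neg, ll, lm, smul_eq_mul] at h4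
        linarith
      · exfalso
        have h4 := congrArg (S.R.pr (lam + lam)) h3
        have h5 := congrArg (S.R.pr (mu + mu)) h3
        simp only [map_sub, map_smul, map_add, map_neg, ll, lm, smul_eq_mul] at h4
        simp only [map_sub, map_smul, map_add, map_neg, ml, mm, smul_eq_mul] at h5
        linarith
    have hyr : y = 0 ∨ y = 1 := by
      have h3 := hW _ (wts_refl hst add wm)
      rw [hy] at h3
      rcases h3 with h3 | h3 | h3 | h3
      · exfalso
        have h4 := congrArg (S.R.pr (lam + lam)) h3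
        have h5 := congrArg (S.R.pr (mu + mu)) h3
        simp only [map_sub, map_smul, map_add, map_neg, ll, lm, smul_eq_mul] at h4
        simp only [map_sub, map_smul, map_add, map_neg, ml, mm, smul_eq_mul] at h5
        linarith
      · left
        have h5 := congrArg (S.R.pr (mu + mu)) h3
        simp only [map_sub, map_smul, map_add, map_neg, ml, mm, smul_eq_mul] at h5
        linarith
      · exfalso
        have h4 := congrArg (S.R.pr (lam + lam)) h3
        have h5 := congrArg (S.R.pr (mu + mu)) h3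
        simp only [map_sub, map_smul, map_add, map_neg, ll, lm, smul_eq_mul] at h4
        simp only [map_sub, map_smul, map_add, map_neg, ml, mm, smul_eq_mul] at h5
        linarith
      · right
        have h5 := congrArg (S.R.pr (mu + mu)) h3
        simp only [map_sub, map_smul, map_add, map_neg, ml, mm, smul_eq_mul] at h5
        linarith
    have hx1 : x = 1 := by
      rcases hxr with h | h <;> rcases hyr with h' | h' <;> linarith
    have hy1 : y = 1 := by linarith
    exact ⟨l2, m2, hsub, add, ll, lm, ml, mm, sl, sm, hx.trans hx1, hy.trans hy1⟩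
  · exfalso
    have h4 := congrArg (S.R.pr (lam - mu)) hr
    rw [map_sub, map_smul, map_neg, h2, hn, hm, smul_eq_mul] at h4
    linarith
  · left
    have h3 := congrArg φ hr
    rw [map_sub, map_smul, map_sub, map_neg, smul_eq_mul] at h3
    have hn2 : (2 : ℚ) < n := by
      by_contra hcon
      push Not at hcon
      have h4 : (n : ℚ) * (φ lam - φ mu) ≤ 2 * (φ lam - φ mu) :=
        mul_le_mul_of_nonneg_right hcon (by linarith)
      linarith
    have h5 := hW _ (wts_str hst hsub wl (k := 2) (by rw [hn]; push_cast; linarith))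
    rcases h5 with h5 | h5 | h5 | h5
    · exfalso
      have h6 := congrArg φ h5
      rw [map_sub, map_smul, map_sub, smul_eq_mul] at h6
      push_cast at h6
      linarith
    · exfalso
      have h6 := congrArg φ h5
      rw [map_sub, map_smul, map_sub, smul_eq_mul] at h6
      push_cast at h6
      linarith
    · have h6 : lam = mu + mu + mu := by
        have h7 : lam = mu + mu + mu - (lam - ((2 : ℕ) : ℚ) • (lam - mu)) + -mu := by
          push_cast
          module
        rw [h5] at h7
        rw [h7]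
        abel
      refine ⟨?_, h6⟩
      have h7 : lam - mu = mu + mu := by rw [h6]; abel
      rwa [h7] at hsub
    · exfalso
      have h6 := congrArg φ h5
      rw [map_sub, map_smul, map_sub, map_neg, smul_eq_mul] at h6
      push_cast at h6
      linarith

end Pool.Agent.W5h25.AS
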