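import Pool.Agent.R912.Q.TH3

set_option autoImplicit false
set_option linter.unusedSectionVars false

/-!
# The symplectic Lie algebra of a subspace of dimension four is generated by few elements
-/

open Module Pool.Agent.R912 Pool.Agent.R912.Q

namespace Pool.Agent.W5h25.AS

variable {U : Type} [AddCommGroup U] [Module ℂ U]

/-- The endomorphism `u ↦ ω u v • w + ω u w • v`. -/
def tau (ω : U →ₗ[ℂ] U →ₗ[ℂ] ℂ) (v w : U) : Module.End ℂ U :=
  (ω.flip v).smulRight w + (ω.flip w).smulRight v

section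

variable {ω : U →ₗ[ℂ] U →ₗ[ℂ] ℂ}

theorem tau_apply (v w u : U) : tau ω v w u = ω u v • w + ω u w • v := rfl

theorem tau_comm (v w : U) : tau ω v w = tau ω w v := by
  refine LinearMap.ext fun u => ?_
  rw [tau_apply, tau_apply, add_comm]

theorem tau_add (v v' w : U) : tau ω (v + v') w = tau ω v w + tau ω v' w := by
  refine LinearMap.ext fun u => ?_
  rw [LinearMap.add_apply, tau_apply, tau_apply, tau_apply, map_add]
  module

theorem tau_smul (r : ℂ) (v w : U) : tau ω (r • v) w = r • tau ω v w := by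
  refine LinearMap.ext fun u => ?_
  rw [LinearMap.smul_apply, tau_apply, tau_apply, map_smul, smul_eq_mul]
  module

theorem tau_zero (w : U) : tau ω 0 w = 0 := by
  refine LinearMap.ext fun u => ?_
  rw [LinearMap.zero_apply, tau_apply, map_zero, zero_smul, smul_zero, add_zero]

theorem tau_br {y : Module.End ℂ U} (hy : ∀ u v, ω (y u) v + ω u (y v) = 0) (v w : U) :
    y * tau ω v w - tau ω v w * y = tau ω (y v) w + tau ω v (y w) := by
  refine LinearMap.ext fun u => ?_
  rw [LinearMap.sub_apply, Module.End.mul_apply, Module.End.mul_apply, LinearMap.add_apply,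
    tau_apply, tau_apply, tau_apply, tau_apply, map_add, map_smul, map_smul,
    eq_neg_of_add_eq_zero_left (hy u v), eq_neg_of_add_eq_zero_left (hy u w)]
  module

theorem tau_skew (al : ∀ u v, ω u v = -ω v u) (v w u u' : U) :
    ω (tau ω v w u) u' + ω u (tau ω v w u') = 0 := by
  rw [tau_apply, tau_apply, map_add, map_add, map_smul, map_smul, map_smul, map_smul,
    LinearMap.add_apply, LinearMap.smul_apply, LinearMap.smul_apply, smul_eq_mul, smul_eq_mul,
    smul_eq_mul, smul_eq_mul, al w u', al v u']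
  ring

end

section Gen

variable {ω : U →ₗ[ℂ] U →ₗ[ℂ] ℂ} {K : Submodule ℂ (Module.End ℂ U)}

/-- **Generation.** -/
theorem gen (al : ∀ u v, ω u v = -ω v u) (hK : ∀ X ∈ K, ∀ Y ∈ K, X * Y - Y * X ∈ K)
    {e f : Module.End ℂ U} (he : e ∈ K) (hf : f ∈ K)
    (se : ∀ u v, ω (e u) v + ω u (e v) = 0) (sf : ∀ u v, ω (f u) v + ω u (f v) = 0)
    {a b c d : U} {e1 e2 e3 f1 f2 f3 : ℂ} (e10 : e1 ≠ 0) (e20 : e2 ≠ 0) (e30 : e3 ≠ 0)
    (f10 : f1 ≠ 0) (f20 : f2 ≠ 0) (f30 : f3 ≠ 0)
    (ea : e a = 0) (eb : e b = e1 • a) (ec : e c = e2 • b) (ed : e d = e3 • c)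
    (fa : f a = f1 • b) (fb : f b = f2 • c) (fc : f c = f3 • d) (fd : f d = 0)
    (ab : ω a b = 0) (cd : ω c d = 0) (ad : ω a d ≠ 0) (bc : ω b c ≠ 0)
    (had : tau ω a d ∈ K) {N : Submodule ℂ U} (hN : N ≤ Submodule.span ℂ {a, b, c, d}) :
    ∀ v ∈ N, ∀ w ∈ N, tau ω v w ∈ K := by
  have brE : ∀ v w, tau ω v w ∈ K → tau ω (e v) w + tau ω v (e w) ∈ K := fun v w h => by
    rw [← tau_br se]; exact hK _ he _ h
  have brF : ∀ v w, tau ω v w ∈ K → tau ω (f v) w + tau ω v (f w) ∈ K := fun v w h => by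
    rw [← tau_br sf]; exact hK _ hf _ h
  have sm : ∀ (r : ℂ) (X : Module.End ℂ U), r ≠ 0 → r • X ∈ K → X ∈ K := fun r X hr h => by
    have h1 := K.smul_mem r⁻¹ h
    rwa [smul_smul, inv_mul_cancel₀ hr, one_smul] at h1
  have ts : ∀ (r : ℂ) (v w : U), tau ω v (r • w) = r • tau ω v w := fun r v w => by
    rw [tau_comm, tau_smul, tau_comm]
  have tz : ∀ v : U, tau ω v 0 = 0 := fun v => by rw [tau_comm, tau_zero]
  -- `b d` and `a c`
  have hbd : tau ω b d ∈ K := by
    have h1 := brF a d had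
    rw [fa, fd, tz, add_zero, tau_smul] at h1
    exact sm _ _ f10 h1
  have hac : tau ω a c ∈ K := by
    have h1 := brE a d had
    rw [ea, ed, tau_zero, zero_add, ts] at h1
    exact sm _ _ e30 h1
  have hbc : tau ω b c ∈ K := by
    have h1 := hK _ hbd _ hac
    rw [tau_br (tau_skew al b d)] at h1
    have h2 : tau ω b d a = ω a d • b := by
      rw [tau_apply, ab, zero_smul, zero_add]
    have h3 : tau ω b d c = ω c b • d := by
      rw [tau_apply, cd, zero_smul, add_zero]
    rw [h2, h3, tau_smul, ts] at h1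
    have h4 := K.sub_mem h1 (K.smul_mem (ω c b) had)
    rw [add_sub_cancel_right] at h4
    exact sm _ _ ad h4
  have hbb : tau ω b b ∈ K := by
    have h1 := brE b c hbc
    rw [eb, ec, tau_smul, ts] at h1
    have h4 := K.sub_mem h1 (K.smul_mem e1 hac)
    rw [add_sub_cancel_left] at h4
    exact sm _ _ e20 h4
  have hcc : tau ω c c ∈ K := by
    have h1 := brF b c hbc
    rw [fb, fc, tau_smul, ts] at h1
    have h4 := K.sub_mem h1 (K.smul_mem f3 hbd)
    rw [add_sub_cancel_right] at h4
    exact sm _ _ f20 h4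
  have hab : tau ω a b ∈ K := by
    have h1 := brE b b hbb
    rw [eb, tau_smul, ts, tau_comm b a, ← add_smul] at h1
    exact sm _ _ (by rw [← two_mul]; exact mul_ne_zero two_ne_zero e10) h1
  have haa : tau ω a a ∈ K := by
    have h1 := brE a b hab
    rw [ea, eb, tau_zero, zero_add, ts] at h1
    exact sm _ _ e10 h1
  have hcd : tau ω c d ∈ K := by
    have h1 := brF c c hcc
    rw [fc, tau_smul, ts, tau_comm d c, ← add_smul] at h1
    exact sm _ _ (by rw [← two_mul]; exact mul_ne_zero two_ne_zero f30) h1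
  have hdd : tau ω d d ∈ K := by
    have h1 := brF c d hcd
    rw [fc, fd, tz, add_zero, tau_smul] at h1
    exact sm _ _ f30 h1
  have key : ∀ v ∈ Submodule.span ℂ {a, b, c, d}, ∀ w ∈ Submodule.span ℂ {a, b, c, d},
      tau ω v w ∈ K := by
    intro v hv
    induction hv using Submodule.span_induction with
    | mem v hv =>
      intro w hw
      induction hw using Submodule.span_induction with
      | mem w hw =>
        simp only [Set.mem_insert_iff, Set.mem_singleton_iff] at hv hw
        rcases hv with rfl | rfl | rfl | rfl <;> rcases hw with rfl | rfl | rfl | rfl <;>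
          first
          | assumption
          | (rw [tau_comm]; assumption)
      | zero => rw [tz]; exact K.zero_mem
      | add w w' _ _ h1 h2 =>
        rw [tau_comm, tau_add, tau_comm, tau_comm w']
        exact K.add_mem h1 h2
      | smul r w _ h1 =>
        rw [ts]
        exact K.smul_mem r h1
    | zero => intro w _; rw [tau_zero]; exact K.zero_mem
    | add v v' _ _ h1 h2 =>
      intro w hw
      rw [tau_add]
      exact K.add_mem (h1 w hw) (h2 w hw)
    | smul r v _ h1 =>
      intro w hw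
      rw [tau_smul]
      exact K.smul_mem r (h1 w hw)
  exact fun v hv w hw => key v (hN hv) w (hN hw)

end Gen

section Supp

variable [FiniteDimensional ℂ U] {ω : U →ₗ[ℂ] U →ₗ[ℂ] ℂ} {K : Submodule ℂ (Module.End ℂ U)} {N : Submodule ℂ U}

/-- Skew endomorphisms which are supported on `N`. -/
theorem supp_mem (al : ∀ u v, ω u v = -ω v u) (hK : ∀ v ∈ N, ∀ w ∈ N, tau ω v w ∈ K)
    {k : ℕ} {e : Fin k × Bool → U} (h : CB N ω (-1) k e) (hsup : N ⊔ oP ω N = ⊤)
    {X : Module.End ℂ U} (hX : ∀ u v, ω (X u) v + ω u (X v) = 0)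
    (hXN : ∀ u ∈ N, X u ∈ N) (hX0 : ∀ u ∈ oP ω N, X u = 0) : X ∈ K := by
  have hXe : X = (2⁻¹ : ℂ) • ∑ p, tau ω (X (e p)) (sg (-1) p • e (bar p)) := by
    refine LinearMap.ext fun u => ?_
    have hu : u ∈ N ⊔ oP ω N := by rw [hsup]; trivial
    obtain ⟨n, hn, m, hm, rfl⟩ := Submodule.mem_sup.1 hu
    have hm' : ((2⁻¹ : ℂ) • ∑ p, tau ω (X (e p)) (sg (-1) p • e (bar p))) m = 0 := by
      rw [LinearMap.smul_apply, LinearMap.sum_apply, Finset.sum_eq_zero, smul_zero]
      intro p _
      rw [tau_apply, al m (X (e p)), hm _ (hXN _ (h.mem p)), map_smul, al m (e (bar p)),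
        hm _ (h.mem (bar p))]
      simp
    rw [map_add, map_add, hX0 m hm, hm', add_zero, add_zero, LinearMap.smul_apply,
      LinearMap.sum_apply]
    have h1 : ∀ p, tau ω (X (e p)) (sg (-1) p • e (bar p)) n =
        -(sg (-1) p * ω (X n) (e p)) • e (bar p) + (sg (-1) p * ω n (e (bar p))) • X (e p) := by
      intro p
      rw [tau_apply, map_smul, smul_eq_mul, eq_neg_of_add_eq_zero_right (hX n (e p))]
      module
    rw [Finset.sum_congr rfl (fun p _ => h1 p), Finset.sum_add_distrib]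
    have h2 : ∑ p, (sg (-1) p * ω n (e (bar p))) • X (e p) = X n := by
      conv_rhs => rw [h.coord neg1 hn]
      rw [map_sum]
      refine Finset.sum_congr rfl fun p _ => ?_
      rw [map_smul]
    have h3 : ∑ p, -(sg (-1) p * ω (X n) (e p)) • e (bar p) = X n := by
      conv_rhs => rw [h.coord neg1 (hXN n hn)]
      let E : (Fin k × Bool) ≃ (Fin k × Bool) :=
        ⟨bar, bar, fun p => bar_bar p, fun p => bar_bar p⟩
      rw [← Equiv.sum_comp E]
      refine Finset.sum_congr rfl fun p _ => ?_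
      change -(sg (-1) (bar p) * ω (X n) (e (bar p))) • e (bar (bar p)) = _
      rw [bar_bar, sg_bar neg1]
      congr 1
      ring
    rw [h2, h3, ← two_smul ℂ (X n), smul_smul, inv_mul_cancel₀ two_ne_zero, one_smul]
  rw [hXe]
  refine K.smul_mem _ (K.sum_mem fun p _ => hK _ (hXN _ (h.mem p)) _
    (N.smul_mem _ (h.mem (bar p))))

end Supp

end Pool.Agent.W5h25.AS
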