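import Pool.Agent.R912.Q.TH3

set_option autoImplicit false
set_option linter.unusedSectionVars false
set_option linter.unusedVariables false

/-!
# Weights of stable subspaces
-/

open Module Pool.Agent.R912 Pool.Agent.R912.Q Pool.Agent.Y102.SP

namespace Pool.Agent.W5h25.AS

attribute [local instance 100] LieRing.ofAssociativeRing

variable {U : Type} [AddCommGroup U] [Module ℂ U] [FiniteDimensional ℂ U]
  {T : Type} [AddCommGroup T] [Module ℂ T] {L : Submodule ℂ (Module.End ℂ U)}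

/-- The weights of a subspace. -/
def wts (S : RS L T) (N : Submodule ℂ U) : Set (Module.Dual ℂ T) :=
  {χ | ∃ u ∈ N, u ≠ 0 ∧ u ∈ usp S.ι χ}

/-- The subspace is stable. -/
def Stab (L : Submodule ℂ (Module.End ℂ U)) (N : Submodule ℂ U) : Prop :=
  ∀ x ∈ L, ∀ u ∈ N, x u ∈ N

section

variable {S : RS L T} {N P : Submodule ℂ U}

theorem wts_mono (h : N ≤ P) : wts S N ⊆ wts S P := by
  rintro χ ⟨u, hu, h0, hχ⟩
  exact ⟨u, h hu, h0, hχ⟩

theorem wts_fin : (wts S (⊤ : Submodule ℂ U)).Finite := by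
  have h1 := WellFoundedGT.finite_ne_bot_of_iSupIndep S.usp_indep
  refine h1.subset ?_
  rintro χ ⟨u, -, h0, hχ⟩
  intro hb
  change usp S.ι χ = ⊥ at hb
  rw [hb, Submodule.mem_bot] at hχ
  exact h0 hχ

theorem pr_eq {γ : Module.Dual ℂ T} (hγ : γ ∈ S.R.Φ) {χ : Module.Dual ℂ T} (hχ : χ ∈ wts S N) :
    χ (S.h γ) = (S.R.pr γ χ : ℂ) := by
  obtain ⟨u, -, hu0, hu⟩ := hχ
  have h1 : ⁅S.ι (S.h γ), u⁆ = χ (S.h γ) • u := hu _
  obtain ⟨m, j, hP, h2⟩ := Wt_prim (S.triple hγ) hu0 h1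
  exact S.prh γ hγ χ ⟨(m : ℚ) - 2 * j, by rw [h2]; push_cast; ring⟩

theorem pr_int {γ : Module.Dual ℂ T} (hγ : γ ∈ S.R.Φ) {χ : Module.Dual ℂ T} (hχ : χ ∈ wts S N) :
    ∃ n : ℤ, S.R.pr γ χ = n := by
  obtain ⟨u, -, hu0, hu⟩ := hχ
  exact S.upr hγ hu hu0

theorem pow_stab {γ : Module.Dual ℂ T} (hN : Stab L N) (hγ : γ ∈ S.R.Φ) {u : U} (hu : u ∈ N)
    (n : ℕ) : ((S.e γ) ^ n) u ∈ N := by
  induction n with
  | zero => simpa using hu
  | succ n ih =>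
    rw [pow_succ', Module.End.mul_apply]
    exact hN _ (S.emem _ hγ) _ ih

/-- strings -/
theorem wts_str (hN : Stab L N) {γ : Module.Dual ℂ T} (hγ : γ ∈ S.R.Φ) {χ : Module.Dual ℂ T}
    (hχ : χ ∈ wts S N) {k : ℕ} (hk : (k : ℚ) ≤ S.R.pr γ χ) : χ - (k : ℚ) • γ ∈ wts S N := by
  obtain ⟨n, hn⟩ := pr_int hγ hχ
  obtain ⟨u, hu, hu0, huχ⟩ := hχ
  have h0 : 0 ≤ n := by
    have h1 : (0 : ℚ) ≤ n := by
      rw [← hn]
      exact le_trans (by positivity) hk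
    exact_mod_cast h1
  obtain ⟨m, rfl⟩ := Int.eq_ofNat_of_zero_le h0
  have hkm : k ≤ m := by
    rw [hn] at hk
    exact_mod_cast hk
  refine ⟨((S.e (-γ)) ^ k) u, pow_stab hN (S.R.neg _ hγ) hu k,
    S.uinj hγ huχ hu0 (n := m) (by rw [hn]; norm_cast) hkm, ?_⟩
  have h1 := S.upow (S.R.neg _ hγ) huχ k
  have h2 : (k : ℚ) • (-γ) + χ = χ - (k : ℚ) • γ := by
    rw [smul_neg]
    abel
  rwa [h2] at h1

theorem low1 (hN : Stab L N) {γ : Module.Dual ℂ T} (hγ : γ ∈ S.R.Φ) {χ : Module.Dual ℂ T}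
    (hχ : χ ∈ wts S N) (hp : 0 < S.R.pr γ χ) : χ - γ ∈ wts S N := by
  obtain ⟨n, hn⟩ := pr_int hγ hχ
  have h1 := wts_str hN hγ hχ (k := 1) (by
    rw [hn] at hp ⊢
    have : (0 : ℤ) < n := by exact_mod_cast hp
    have : (1 : ℤ) ≤ n := this
    exact_mod_cast this)
  rw [Nat.cast_one, one_smul] at h1
  exact h1

/-- reflections -/
theorem wts_refl (hN : Stab L N) {γ : Module.Dual ℂ T} (hγ : γ ∈ S.R.Φ) {χ : Module.Dual ℂ T}
    (hχ : χ ∈ wts S N) : χ - S.R.pr γ χ • γ ∈ wts S N := by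
  obtain ⟨n, hn⟩ := pr_int hγ hχ
  rcases le_total 0 n with h | h
  · obtain ⟨m, rfl⟩ := Int.eq_ofNat_of_zero_le h
    have h1 : S.R.pr γ χ = (m : ℚ) := by rw [hn]; norm_cast
    have h2 := wts_str hN hγ hχ (k := m) h1.ge
    rw [h1]
    exact h2
  · obtain ⟨m, hm⟩ := Int.eq_ofNat_of_zero_le (neg_nonneg.2 h)
    have h0 : S.R.pr (-γ) χ = (m : ℚ) := by
      rw [S.R.pneg _ hγ, hn]
      have : ((-n : ℤ) : ℚ) = ((m : ℤ) : ℚ) := by rw [hm]
      push_cast at this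
      exact this
    have h2 := wts_str hN (S.R.neg _ hγ) hχ (k := m) h0.ge
    rw [← h0, S.R.pneg _ hγ, neg_smul_neg] at h2
    exact h2

/-- The root `γ` acts on `N`. -/
def Act (S : RS L T) (γ : Module.Dual ℂ T) (N : Submodule ℂ U) : Prop :=
  ∃ χ ∈ wts S N, S.R.pr γ χ ≠ 0

theorem act_conn (hN : Stab L N) {γ δ : Module.Dual ℂ T} (hγ : γ ∈ S.R.Φ)
    (h : S.R.pr δ γ ≠ 0) (ha : Act S γ N) : Act S δ N := by
  obtain ⟨χ, hχ, h1⟩ := ha
  by_cases h2 : S.R.pr δ χ = 0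
  · refine ⟨_, wts_refl hN hγ hχ, ?_⟩
    rw [map_sub, map_smul, h2, zero_sub, smul_eq_mul]
    exact neg_ne_zero.2 (mul_ne_zero h1 h)
  · exact ⟨χ, hχ, h2⟩

theorem Act.neg {γ : Module.Dual ℂ T} (hγ : γ ∈ S.R.Φ) (ha : Act S γ N) : Act S (-γ) N := by
  obtain ⟨χ, hχ, h1⟩ := ha
  exact ⟨χ, hχ, by rw [S.R.pneg _ hγ]; exact neg_ne_zero.2 h1⟩

theorem wts_wb {d : ℕ} {b : Fin d → U} {χ : Fin d → Module.Dual ℂ T} (W : S.WB N d b χ) :
    wts S N = Set.range χ := by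
  ext ψ
  constructor
  · rintro ⟨u, hu, hu0, h1⟩
    exact W.exists_of_usp hu h1 hu0
  · rintro ⟨i, rfl⟩
    exact ⟨b i, W.mem i, W.ne i, W.wt i⟩

theorem kill_of_not_act (hN : IrrSub L N) {γ : Module.Dual ℂ T} (hγ : γ ∈ S.R.Φ)
    (h : ¬ Act S γ N) : ∀ u ∈ N, S.e γ u = 0 ∧ S.ι (S.h γ) u = 0 := by
  obtain ⟨b, χ, W⟩ := S.exists_wb hN
  have key : ∀ i, S.e γ (b i) = 0 ∧ S.ι (S.h γ) (b i) = 0 := by
    intro i
    have hw : χ i ∈ wts S N := ⟨b i, W.mem i, W.ne i, W.wt i⟩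
    have h0 : S.R.pr γ (χ i) = 0 := by
      by_contra hne
      exact h ⟨_, hw, hne⟩
    constructor
    · by_contra hne
      apply h
      refine ⟨γ + χ i, ⟨_, hN.stab _ (S.emem _ hγ) _ (W.mem i), hne,
        S.usp_mul (fun t => S.wt γ hγ t) (W.wt i)⟩, ?_⟩
      rw [map_add, S.R.two γ hγ, h0]
      norm_num
    · rw [W.wt i, pr_eq hγ hw, h0]
      simp
  intro u hu
  rw [← W.span] at hu
  induction hu using Submodule.span_induction with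
  | mem u hu =>
    obtain ⟨i, rfl⟩ := hu
    exact key i
  | zero => simp
  | add u v _ _ h1 h2 => rw [map_add, map_add, h1.1, h1.2, h2.1, h2.2]; simp
  | smul c u _ h1 => rw [map_smul, map_smul, h1.1, h1.2]; simp

end

/-! ## A generic functional -/

/-- A functional which is generic for the roots and the weights. -/
structure Phi (S : RS L T) (φ : Module.Dual ℂ T →ₗ[ℚ] ℚ) : Prop where
  root : ∀ α ∈ S.R.Φ, φ α ≠ 0
  inj : ∀ χ ∈ wts S (⊤ : Submodule ℂ U), ∀ ψ ∈ wts S (⊤ : Submodule ℂ U), φ χ = φ ψ → χ = ψ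
  zero : ∀ χ ∈ wts S (⊤ : Submodule ℂ U), φ χ = 0 → χ = 0

theorem exists_phi (S : RS L T) : ∃ φ, Phi S φ := by
  classical
  have hW := wts_fin (S := S)
  have hF : (S.R.Φ ∪ (Set.image2 (fun χ ψ => χ - ψ) (wts S (⊤ : Submodule ℂ U))
      (wts S (⊤ : Submodule ℂ U)) ∪ wts S (⊤ : Submodule ℂ U))).Finite :=
    S.R.fin.union ((hW.image2 _ hW).union hW)
  obtain ⟨φ, -, hφ⟩ := avoid hF (⊥ : Submodule ℚ (Module.Dual ℂ T))
  refine ⟨φ, ?_, ?_, ?_⟩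
  · intro α hα
    refine hφ α (Or.inl hα) fun h => ?_
    rw [Submodule.mem_bot] at h
    exact S.R.zero (h ▸ hα)
  · intro χ hχ ψ hψ h
    by_contra hne
    refine hφ (χ - ψ) (Or.inr (Or.inl ⟨χ, hχ, ψ, hψ, rfl⟩)) (fun h => ?_) ?_
    · rw [Submodule.mem_bot, sub_eq_zero] at h
      exact hne h
    · rw [map_sub, h, sub_self]
  · intro χ hχ h
    by_contra hne
    exact hφ χ (Or.inr (Or.inr hχ)) (fun h => hne ((Submodule.mem_bot _).1 h)) h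

theorem Phi.top {S : RS L T} {φ : Module.Dual ℂ T →ₗ[ℚ] ℚ} (hφ : Phi S φ) {N : Submodule ℂ U}
    {d : ℕ} {b : Fin d → U} {χ : Fin d → Module.Dual ℂ T} (W : S.WB N d b χ) (hd : 0 < d) :
    ∃ i0, RS.Top S χ φ i0 := by
  have : Nonempty (Fin d) := ⟨⟨0, hd⟩⟩
  obtain ⟨i0, hi0⟩ := Finite.exists_max fun i => φ (χ i)
  have hw : ∀ i, χ i ∈ wts S (⊤ : Submodule ℂ U) := fun i => ⟨b i, trivial, W.ne i, W.wt i⟩
  exact ⟨i0, hφ.root, fun i j h => hφ.inj _ (hw i) _ (hw j) h, fun i h => hφ.zero _ (hw i) h, hi0⟩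

/-! ## Highest weights -/

theorem gen_stab {S : RS L T} {P : Submodule ℂ U} (hP : Stab L P) {u : U} (hu : u ∈ P)
    (l : List (Module.Dual ℂ T)) : (∀ γ ∈ l, γ ∈ S.R.Φ) → S.gen u l ∈ P := by
  induction l with
  | nil =>
    intro _
    rw [RS.gen_nil]
    exact hu
  | cons γ l ih =>
    intro hl
    rw [RS.gen_cons]
    exact hP _ (S.emem _ (hl γ List.mem_cons_self)) _
      (ih fun β hβ => hl β (List.mem_cons_of_mem _ hβ))

theorem hw_unique' (S : RS L T) {φ : Module.Dual ℂ T →ₗ[ℚ] ℚ} (hφ : ∀ α ∈ S.R.Φ, φ α ≠ 0)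
    {N1 N2 : Submodule ℂ U} (h1 : IrrSub L N1) (h2 : IrrSub L N2) {v1 v2 : U} (hv1 : v1 ∈ N1)
    (hv2 : v2 ∈ N2) (n1 : v1 ≠ 0) (n2 : v2 ≠ 0) {μ : Module.Dual ℂ T} (w1 : v1 ∈ usp S.ι μ)
    (w2 : v2 ∈ usp S.ι μ) (k1 : ∀ α ∈ S.R.Φ, 0 < φ α → S.e α v1 = 0)
    (k2 : ∀ α ∈ S.R.Φ, 0 < φ α → S.e α v2 = 0) (hd : N1 ⊓ N2 = ⊥) :
    ∃ D, IrrSub L D ∧ D ≤ N1 ⊔ N2 ∧ ¬ D ≤ N1 ∧ ¬ D ≤ N2 := by
  have w12 : v1 + v2 ∈ usp S.ι μ := Submodule.add_mem _ w1 w2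
  have hk : ∀ α ∈ S.R.Φ, 0 < φ α → S.e α (v1 + v2) = 0 := by
    intro α hα hp
    rw [map_add, k1 α hα hp, k2 α hα hp, add_zero]
  have hmem : v1 + v2 ∈ S.D φ (v1 + v2) := Submodule.subset_span ⟨[], by simp, (S.gen_nil _).symm⟩
  have hst : ∀ x ∈ L, ∀ u ∈ S.D φ (v1 + v2), x u ∈ S.D φ (v1 + v2) := by
    intro x hx u hu
    have h3 : S.D φ (v1 + v2) ≤ (S.D φ (v1 + v2)).comap x := by
      conv_lhs => unfold RS.D
      rw [Submodule.span_le]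
      rintro _ ⟨l, hl, rfl⟩
      exact S.D_stable hφ w12 hk l hl x hx
    exact h3 hu
  have dj : ∀ u, u ∈ N1 → u ∈ N2 → u = 0 := by
    intro u hu hu'
    have : u ∈ N1 ⊓ N2 := ⟨hu, hu'⟩
    rwa [hd, Submodule.mem_bot] at this
  have h0 : S.D φ (v1 + v2) ≠ ⊥ := by
    intro hb
    rw [hb, Submodule.mem_bot] at hmem
    apply n1
    refine dj v1 hv1 ?_
    rw [eq_neg_of_add_eq_zero_left hmem]
    exact N2.neg_mem hv2
  have hle : S.D φ (v1 + v2) ≤ N1 ⊔ N2 := by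
    have hst' : Stab L (N1 ⊔ N2) := by
      intro x hx u hu
      obtain ⟨a, ha, c, hc, rfl⟩ := Submodule.mem_sup.1 hu
      rw [map_add]
      exact Submodule.add_mem _ (Submodule.mem_sup_left (h1.stab x hx a ha))
        (Submodule.mem_sup_right (h2.stab x hx c hc))
    unfold RS.D
    rw [Submodule.span_le]
    rintro _ ⟨l, hl, rfl⟩
    exact gen_stab hst' (Submodule.add_mem _ (Submodule.mem_sup_left hv1)
      (Submodule.mem_sup_right hv2)) l fun γ hγ => (hl γ hγ).1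
  obtain ⟨D, hD, hDle⟩ := exists_irrSub_le hst h0
  refine ⟨D, hD, hDle.trans hle, fun hle => ?_, fun hle => ?_⟩
  · have h3 := h1.irr D hle hD.stab hD.ne
    have h4 : v1 ∈ S.D φ (v1 + v2) := hDle (h3 ▸ hv1)
    obtain ⟨c, hc⟩ := S.D_top w12 h4 w1
    have h5 : c • v2 = (1 - c) • v1 := by
      rw [sub_smul, one_smul]
      nth_rewrite 1 [hc]
      rw [smul_add]
      abel
    have h6 : c • v2 = 0 := dj _ (by rw [h5]; exact N1.smul_mem _ hv1) (N2.smul_mem _ hv2)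
    have h7 : c = 0 := (smul_eq_zero.1 h6).resolve_right n2
    rw [h7, zero_smul] at hc
    exact n1 hc
  · have h3 := h2.irr D hle hD.stab hD.ne
    have h4 : v2 ∈ S.D φ (v1 + v2) := hDle (h3 ▸ hv2)
    obtain ⟨c, hc⟩ := S.D_top w12 h4 w2
    have h5 : c • v1 = (1 - c) • v2 := by
      rw [sub_smul, one_smul]
      nth_rewrite 1 [hc]
      rw [smul_add]
      abel
    have h6 : c • v1 = 0 := dj _ (N1.smul_mem _ hv1) (by rw [h5]; exact N2.smul_mem _ hv2)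
    have h7 : c = 0 := (smul_eq_zero.1 h6).resolve_right n1
    rw [h7, zero_smul] at hc
    exact n2 hc

variable {ω : U →ₗ[ℂ] U →ₗ[ℂ] ℂ}

/-- Irreducible subspaces with the same weights are in the same isotypic component. -/
theorem same_wts (H : THyp0 L ω) (S : RS L T) {P N1 N2 : Submodule ℂ U} (hP : Stab L P)
    (hP' : ∀ x ∈ comL L, ∀ u ∈ P, x u ∈ P) (h1 : IrrSub L N1) (h2 : IrrSub L N2) (h1P : N1 ≤ P)
    (h2P : N2 ≤ oP ω P) (hw : wts S N1 = wts S N2) : False := by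
  obtain ⟨φ, hφ⟩ := exists_phi S
  obtain ⟨b1, χ1, W1⟩ := S.exists_wb h1
  obtain ⟨b2, χ2, W2⟩ := S.exists_wb h2
  obtain ⟨i1, T1⟩ := hφ.top W1 (finrank_irr_pos h1)
  obtain ⟨i2, T2⟩ := hφ.top W2 (finrank_irr_pos h2)
  have hw1 := wts_wb W1
  have hw2 := wts_wb W2
  have heq : χ1 i1 = χ2 i2 := by
    apply hφ.inj _ ⟨b1 i1, trivial, W1.ne _, W1.wt _⟩ _ ⟨b2 i2, trivial, W2.ne _, W2.wt _⟩
    apply le_antisymm
    · have h3 : χ1 i1 ∈ Set.range χ2 := by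
        rw [← hw2, ← hw, hw1]
        exact ⟨_, rfl⟩
      obtain ⟨j, hj⟩ := h3
      rw [← hj]
      exact T2.max j
    · have h3 : χ2 i2 ∈ Set.range χ1 := by
        rw [← hw1, hw, hw2]
        exact ⟨_, rfl⟩
      obtain ⟨j, hj⟩ := h3
      rw [← hj]
      exact T1.max j
  have hbot : ∀ u, u ∈ P → u ∈ oP ω P → u = 0 := fun u hu hu' => H.abs P hP hP' u hu hu'
  obtain ⟨D, hD, hD12, hD1, hD2⟩ := hw_unique' S hφ.root h1 h2 (W1.mem i1) (W2.mem i2)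
    (W1.ne i1) (W2.ne i2) (W1.wt i1) (by rw [heq]; exact W2.wt i2)
    (fun α hα hp => W1.kill T1 h1 hα hp) (fun α hα hp => W2.kill T2 h2 hα hp) (by
      rw [eq_bot_iff]
      rintro u ⟨hu1, hu2⟩
      rw [Submodule.mem_bot]
      exact hbot u (h1P hu1) (h2P hu2))
  rcases H.dich hD hP hP' with h3 | h3
  · apply hD1
    intro u hu
    obtain ⟨a, ha, c, hc, rfl⟩ := Submodule.mem_sup.1 (hD12 hu)
    have h4 : c = 0 := by
      apply hbot c _ (h2P hc)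
      have h5 : c = (a + c) - a := by abel
      rw [h5]
      exact P.sub_mem (h3 hu) (h1P ha)
    rw [h4, add_zero]
    exact ha
  · apply hD2
    intro u hu
    obtain ⟨a, ha, c, hc, rfl⟩ := Submodule.mem_sup.1 (hD12 hu)
    have h4 : a = 0 := by
      apply hbot a (h1P ha)
      have h5 : a = (a + c) - c := by abel
      rw [h5]
      exact (oP ω P).sub_mem (h3 hu) (h2P hc)
    rw [h4, zero_add]
    exact hc

/-- Induction on the irreducible subspaces. -/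
theorem ind_irr (H : THyp0 L ω) {P : Submodule ℂ U} (hP : Stab L P)
    (hP' : ∀ x ∈ comL L, ∀ u ∈ P, x u ∈ P) {Q : Submodule ℂ U}
    (hQ : ∀ D, IrrSub L D → D ≤ P → D ≤ Q) : P ≤ Q := by
  have h1 : (⊤ : Submodule ℂ U) ≤ (P ⊓ Q) ⊔ oP ω P := by
    rw [← H.soc]
    refine sSup_le fun D hD => ?_
    rcases H.dich hD hP hP' with h | h
    · exact le_sup_of_le_left (le_inf h (hQ D hD h))
    · exact le_sup_of_le_right h
  intro u hu
  obtain ⟨a, ha, c, hc, rfl⟩ := Submodule.mem_sup.1 (h1 (x := u) trivial)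
  have h4 : c = 0 := by
    apply H.abs P hP hP' c _ hc
    have h5 : c = (a + c) - a := by abel
    rw [h5]
    exact P.sub_mem hu ha.1
  rw [h4, add_zero]
  exact ha.2

end Pool.Agent.W5h25.AS
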